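import Mathlib.Algebra.AffineMonoid.Basic
import Mathlib.RingTheory.Flat.FaithfullyFlat.Algebra
import Mathlib.Topology.Sheaves.Presheaf
import Mathlib.Tactic.Monotonicity.Lemmas
import Mathlib.RingTheory.Flat.TorsionFree
import Mathlib.Data.Int.Star
import Mathlib.Algebra.Order.Ring.Star
import Mathlib.LinearAlgebra.Lagrange
import Mathlib.Algebra.Order.Archimedean.Real.Hom
import Mathlib.Algebra.Order.Star.Real
import Mathlib.Algebra.Ring.IsFormallyReal
import Mathlib.RingTheory.PowerSeries.Basic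
import Mathlib.Analysis.Complex.Polynomial.Basic
import Mathlib.Analysis.CStarAlgebra.Classes
import Mathlib.Combinatorics.SimpleGraph.Basic
import Mathlib.Analysis.Polynomial.Basic
import Mathlib.RingTheory.PiTensorProduct
import Mathlib.RingTheory.SimpleRing.Principal
import Mathlib.Order.CompletePartialOrder
import Mathlib.Tactic.Polynomial.Basic

-- ======== part 0: formerly Pool.Agent.MP_4d57dd_an.DJ
section MrgPart0

/-!
# The Desnanot-Jacobi identity
-/

namespace Pool.Agent.MP_4d57dd_an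

open Matrix

lemma dj_aux {R : Type} [CommRing R] {m : ℕ} (M : Matrix (Fin (m + 2)) (Fin (m + 2)) R) :
    M.det * (adjugate M 0 0 * adjugate M (Fin.last _) (Fin.last _) -
      adjugate M 0 (Fin.last _) * adjugate M (Fin.last _) 0) =
    M.det ^ 2 * (M.submatrix (fun i : Fin m => i.castSucc.succ)
      (fun i : Fin m => i.castSucc.succ)).det := by
  set A := adjugate M with hA
  let E : Matrix (Fin (m + 2)) (Fin (m + 2)) R :=
    Matrix.of fun i j => if j = 0 ∨ j = Fin.last _ then A i j else (1 : Matrix _ _ R) i j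
  have hMA : M * A = M.det • (1 : Matrix _ _ R) := mul_adjugate M
  have hME : M * E = Matrix.of fun i j =>
      if j = 0 ∨ j = Fin.last _ then (M.det • (1 : Matrix _ _ R)) i j else M i j := by
    ext i j
    by_cases h : j = 0 ∨ j = Fin.last _
    · simp only [mul_apply, E, of_apply, h, if_true]
      rw [← hMA, mul_apply]
    · simp only [mul_apply, E, of_apply, h, if_false]
      rw [← mul_apply, Matrix.mul_one]
  have hl0 : Fin.last (m + 1) ≠ 0 := by simp
  have hc0 : ∀ i : Fin m, i.castSucc.succ ≠ 0 := fun i => Fin.succ_ne_zero _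
  have hcl : ∀ i : Fin m, i.castSucc.succ ≠ Fin.last (m + 1) := by
    intro i h
    have := congrArg Fin.val h
    simp at this
    omega
  have h1 : (M * E).det = M.det ^ 2 * (M.submatrix (fun i : Fin m => i.castSucc.succ)
      (fun i : Fin m => i.castSucc.succ)).det := by
    rw [hME, det_succ_column_zero, Fin.sum_univ_succ, Finset.sum_eq_zero, add_zero]
    · rw [det_succ_column _ (Fin.last m), Fin.sum_univ_castSucc, Finset.sum_eq_zero, zero_add]
      · simp only [Fin.succAbove_last, Fin.succAbove_zero, submatrix_apply, of_apply,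
          Fin.succ_last, or_true, if_true, true_or, Matrix.smul_apply, one_apply_eq, smul_eq_mul,
          mul_one, submatrix_submatrix, Fin.val_zero, pow_zero, one_mul, Fin.val_last]
        rw [← two_mul, pow_mul, neg_one_sq, one_pow, one_mul, ← mul_assoc, ← sq]
        congr 2
        ext i j
        simp [hc0, hcl]
      · intro i _
        have : i.castSucc.succ ≠ Fin.last (m + 1) := hcl i
        simp [one_apply, this]
    · intro i _
      simp [one_apply]
  have h2 : E.det = A 0 0 * A (Fin.last _) (Fin.last _) - A 0 (Fin.last _) * A (Fin.last _) 0 := by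
    have hint : (E.submatrix (Fin.succ ∘ Fin.castSucc) (Fin.succ ∘ Fin.castSucc) :
        Matrix (Fin m) (Fin m) R) = 1 := by
      ext i j
      simp [E, hc0, hcl, one_apply]
    have hint' : (E.submatrix (Fin.succ ∘ Fin.castSucc) (Fin.castSucc ∘ Fin.succ) :
        Matrix (Fin m) (Fin m) R) = 1 := by
      rw [← hint]; rfl
    have h00 : (E.submatrix Fin.succ Fin.succ).det = A (Fin.last _) (Fin.last _) := by
      rw [det_succ_row _ (Fin.last m), Fin.sum_univ_castSucc, Finset.sum_eq_zero, zero_add]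
      · simp only [Fin.succAbove_last, submatrix_submatrix, hint, det_one, submatrix_apply,
          Fin.succ_last, Fin.val_last]
        rw [← two_mul, pow_mul, neg_one_sq, one_pow, one_mul, mul_one]
        simp [E]
      · intro j _
        have := (hcl j).symm
        simp [E, hcl, one_apply, this]
    have h0l : (E.submatrix Fin.succ Fin.castSucc).det = (-1) ^ m * A (Fin.last _) 0 := by
      rw [det_succ_row _ (Fin.last m), Fin.sum_univ_succ, Finset.sum_eq_zero, add_zero]
      · simp only [Fin.succAbove_last, Fin.succAbove_zero, submatrix_submatrix, hint', det_one,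
          submatrix_apply, Fin.succ_last, Fin.val_last]
        simp [E]
      · intro j _
        have := (hcl j).symm
        simp [E, hcl, one_apply, this]
    rw [det_succ_row_zero, Fin.sum_univ_succ, Fin.sum_univ_castSucc, Finset.sum_eq_zero, zero_add]
    · simp only [Fin.succAbove_zero, Fin.succ_last, Fin.succAbove_last, h00, h0l, Fin.val_last]
      simp only [E, of_apply, true_or, or_true, if_true, Fin.val_zero, pow_zero, one_mul]
      have : ((-1 : R) ^ m) * (-1) ^ m = 1 := by rw [← mul_pow]; simp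
      rw [pow_succ]
      linear_combination (-A 0 (Fin.last _) * A (Fin.last _) 0) * this
    · intro j _
      have := (hc0 j).symm
      simp [E, hcl, one_apply, this]
  rw [← h1, det_mul, h2]

lemma dj_domain {R : Type} [CommRing R] [IsDomain R] {m : ℕ}
    (M : Matrix (Fin (m + 2)) (Fin (m + 2)) R) (h : M.det ≠ 0) :
    M.det * (M.submatrix (fun i : Fin m => i.castSucc.succ)
      (fun i : Fin m => i.castSucc.succ)).det =
    (M.submatrix Fin.succ Fin.succ).det * (M.submatrix Fin.castSucc Fin.castSucc).det -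
      (M.submatrix Fin.succ Fin.castSucc).det * (M.submatrix Fin.castSucc Fin.succ).det := by
  have := dj_aux M
  simp only [adjugate_fin_succ_eq_det_submatrix, Fin.succAbove_zero, Fin.succAbove_last,
    Fin.val_zero, Fin.val_last] at this
  apply mul_left_cancel₀ h
  have h1 : ((-1 : R) ^ (m + 1)) * (-1) ^ (m + 1) = 1 := by rw [← mul_pow]; simp
  have h2 : ((-1 : R) ^ (m + 1 + (m + 1))) = 1 := by rw [pow_add, h1]
  simp only [zero_add, add_zero, pow_zero, h2] at this
  linear_combination (-1 : R) * this - M.det * (M.submatrix Fin.succ Fin.castSucc).det *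
    (M.submatrix Fin.castSucc Fin.succ).det * h1

lemma dj {R : Type} [CommRing R] {m : ℕ} (M : Matrix (Fin (m + 2)) (Fin (m + 2)) R) :
    M.det * (M.submatrix (fun i : Fin m => i.castSucc.succ)
      (fun i : Fin m => i.castSucc.succ)).det =
    (M.submatrix Fin.succ Fin.succ).det * (M.submatrix Fin.castSucc Fin.castSucc).det -
      (M.submatrix Fin.succ Fin.castSucc).det * (M.submatrix Fin.castSucc Fin.succ).det := by
  have h := dj_domain (mvPolynomialX (Fin (m + 2)) (Fin (m + 2)) ℤ)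
    (det_mvPolynomialX_ne_zero _ ℤ)
  let φ : MvPolynomial (Fin (m + 2) × Fin (m + 2)) ℤ →+* R :=
    MvPolynomial.eval₂Hom (Int.castRingHom R) fun p => M p.1 p.2
  have hφ : (mvPolynomialX (Fin (m + 2)) (Fin (m + 2)) ℤ).map φ = M := by
    ext i j; simp [φ, mvPolynomialX]
  have := congrArg φ h
  simp only [map_mul, map_sub, RingHom.map_det, RingHom.mapMatrix_apply, ← submatrix_map,
    hφ] at this
  exact this

/-- Determinant of the leading `m × m` block of an infinite array. -/
def dt {R : Type} [CommRing R] (f : ℕ → ℕ → R) (m : ℕ) : R :=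
  (Matrix.of fun a b : Fin m => f a b).det

lemma dt_dj {R : Type} [CommRing R] (f : ℕ → ℕ → R) (m : ℕ) :
    dt f (m + 2) * dt (fun a b => f (a + 1) (b + 1)) m =
      dt (fun a b => f (a + 1) (b + 1)) (m + 1) * dt f (m + 1) -
        dt (fun a b => f (a + 1) b) (m + 1) * dt (fun a b => f a (b + 1)) (m + 1) :=
  dj (Matrix.of fun a b : Fin (m + 2) => f a b)

lemma map_dt {R S : Type} [CommRing R] [CommRing S] (φ : R →+* S) (f : ℕ → ℕ → R) (m : ℕ) :
    φ (dt f m) = dt (fun a b => φ (f a b)) m := by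
  rw [dt, RingHom.map_det]; rfl

end Pool.Agent.MP_4d57dd_an

end MrgPart0

-- ======== part 1: formerly Pool.Agent.MP_4d57dd_an.Alt
section MrgPart1

/-!
# Toeplitz determinants, sign alternations and non-vanishing
-/

namespace Pool.Agent.MP_4d57dd_an

open Polynomial

/-- Toeplitz determinant `det [p_{k+a-b}]` of size `m`. -/
noncomputable def tau {R : Type} [CommRing R] (p : R[X]) (k m : ℕ) : R :=
  dt (fun a b => (p * X ^ b).coeff (k + a)) m

/-- The array of `tau`, bordered by a first column of coefficients of `ν`. -/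
noncomputable def gamArr {R : Type} [CommRing R] (p ν : R[X]) (κ : ℕ) : ℕ → ℕ → R
  | a, 0 => ν.coeff (κ + a)
  | a, b + 1 => (p * X ^ b).coeff (κ + a)

/-- The bordered Toeplitz determinant of size `m + 1`. -/
noncomputable def gam {R : Type} [CommRing R] (p ν : R[X]) (κ m : ℕ) : R :=
  dt (gamArr p ν κ) (m + 1)

section ring

variable {R S : Type} [CommRing R] [CommRing S]

lemma map_tau (φ : R →+* S) (p : R[X]) (k m : ℕ) : φ (tau p k m) = tau (p.map φ) k m := by
  rw [tau, map_dt, tau]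
  congr 1
  ext a b
  rw [← coeff_map]; simp

lemma map_gam (φ : R →+* S) (p ν : R[X]) (k m : ℕ) :
    φ (gam p ν k m) = gam (p.map φ) (ν.map φ) k m := by
  rw [gam, map_dt, gam]
  congr 1
  ext a b
  cases b with
  | zero => simp [gamArr]
  | succ b => simp only [gamArr]; rw [← coeff_map]; simp

lemma tau_zero (p : R[X]) (k : ℕ) : tau p k 0 = 1 := by simp [tau, dt]

lemma tau_dj (p : R[X]) (k m : ℕ) :
    tau p (k + 1) (m + 2) * tau p (k + 1) m =
      tau p (k + 1) (m + 1) ^ 2 - tau p (k + 2) (m + 1) * tau p k (m + 1) := by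
  have := dt_dj (fun a b => (p * X ^ b).coeff (k + 1 + a)) m
  have h1 : (fun a b => (p * X ^ (b + 1)).coeff (k + 1 + (a + 1))) =
      fun a b => (p * X ^ b).coeff (k + 1 + a) := by
    ext a b
    rw [pow_succ, ← mul_assoc, ← add_assoc, coeff_mul_X]
  have h2 : (fun a b => (p * X ^ b).coeff (k + 1 + (a + 1))) =
      fun a b => (p * X ^ b).coeff (k + 2 + a) := by
    ext a b; congr 1; ring
  have h3 : (fun a b => (p * X ^ (b + 1)).coeff (k + 1 + a)) =
      fun a b => (p * X ^ b).coeff (k + a) := by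
    ext a b
    rw [pow_succ, ← mul_assoc, show k + 1 + a = k + a + 1 by ring, coeff_mul_X]
  rw [h1, h2, h3] at this
  rw [sq]
  exact this

lemma gam_dj (p ν : R[X]) (k m : ℕ) :
    gam p ν k (m + 1) * tau p (k + 1) m =
      tau p (k + 1) (m + 1) * gam p ν k m - gam p ν (k + 1) m * tau p k (m + 1) := by
  have := dt_dj (gamArr p ν k) m
  have h1 : (fun a b => gamArr p ν k (a + 1) (b + 1)) =
      fun a b => (p * X ^ b).coeff (k + 1 + a) := by
    ext a b; simp only [gamArr]; congr 1; ring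
  have h2 : (fun a b => gamArr p ν k (a + 1) b) = gamArr p ν (k + 1) := by
    ext a b
    cases b <;> simp only [gamArr] <;> congr 1 <;> ring
  rw [h1, h2] at this
  exact this

lemma gam_eq_zero (p ν : R[X]) (k m : ℕ) (h : ν.natDegree < k) : gam p ν k m = 0 := by
  refine Matrix.det_eq_zero_of_column_eq_zero 0 fun a => ?_
  exact coeff_eq_zero_of_natDegree_lt (by omega)

end ring

/-- `p` is a positive constant times `n` factors `γ + σ γ' X` with `γ, γ' > 0`. -/
inductive Fac (σ : ℝ) : ℕ → ℝ[X] → Prop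
  | const (c : ℝ) (hc : 0 < c) : Fac σ 0 (C c)
  | step {n : ℕ} {p : ℝ[X]} (γ γ' : ℝ) (h : 0 < γ) (h' : 0 < γ') (hp : Fac σ n p) :
      Fac σ (n + 1) ((C γ + C (σ * γ') * X) * p)

lemma Fac.natDegree_le {σ : ℝ} {n : ℕ} {p : ℝ[X]} (h : Fac σ n p) : p.natDegree ≤ n := by
  induction h with
  | const c _ => simp
  | step γ γ' _ _ _ ih =>
    refine natDegree_mul_le.trans ?_
    have : (C γ + C (σ * γ') * X).natDegree ≤ 1 := by compute_degree
    omega

lemma Fac.comp_neg {σ : ℝ} {n : ℕ} {p : ℝ[X]} (h : Fac σ n p) : Fac (-σ) n (p.comp (-X)) := by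
  induction h with
  | const c hc => simpa using Fac.const c hc
  | step γ γ' h h' _ ih =>
    have := Fac.step γ γ' h h' ih
    convert this using 1
    simp

lemma Fac.pow_mul {σ : ℝ} {n : ℕ} {p : ℝ[X]} (hp : Fac σ n p) (γ γ' : ℝ) (h : 0 < γ)
    (h' : 0 < γ') (j : ℕ) : Fac σ (n + j) ((C γ + C (σ * γ') * X) ^ j * p) := by
  induction j with
  | zero => simpa using hp
  | succ j ih =>
    rw [pow_succ', mul_assoc]
    exact Fac.step γ γ' h h' ih

/-- The coefficient sequence of `u` has `p` sign changes, starting with the sign of `s`. -/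
def Alt (u : ℝ[X]) (p : ℕ) (s : ℝ) : Prop :=
  ∃ i : ℕ → ℕ, (∀ l < p, i l < i (l + 1)) ∧ ∀ l ≤ p, 0 < (-1) ^ l * s * u.coeff (i l)

lemma coeff_lin_mul_zero (γ δ : ℝ) (u : ℝ[X]) :
    ((C γ + C δ * X) * u).coeff 0 = γ * u.coeff 0 := by
  simp [add_mul, mul_assoc]

lemma coeff_lin_mul_succ (γ δ : ℝ) (u : ℝ[X]) (i : ℕ) :
    ((C γ + C δ * X) * u).coeff (i + 1) = γ * u.coeff (i + 1) + δ * u.coeff i := by
  simp [add_mul, mul_assoc, coeff_X_mul]

lemma Alt.of_neg_root {γ γ' : ℝ} (h : 0 < γ) (h' : 0 < γ') {u : ℝ[X]} {p : ℕ} {s : ℝ}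
    (H : Alt ((C γ + C γ' * X) * u) p s) : Alt u p s := by
  obtain ⟨i, hi, hs⟩ := H
  have key : ∀ l, ∃ j, l ≤ p → (j ≤ i l ∧ i l ≤ j + 1 ∧ 0 < (-1) ^ l * s * u.coeff j) := by
    intro l
    by_cases hl : l ≤ p
    · have := hs l hl
      generalize (-1) ^ l * s = c at this
      rcases hil : i l with _ | k
      · rw [hil, coeff_lin_mul_zero] at this
        refine ⟨0, fun _ => ⟨le_rfl, by omega, ?_⟩⟩
        by_contra hcon
        nlinarith
      · rw [hil, coeff_lin_mul_succ] at this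
        by_cases h1 : 0 < c * u.coeff (k + 1)
        · exact ⟨k + 1, fun _ => ⟨le_rfl, by omega, h1⟩⟩
        · refine ⟨k, fun _ => ⟨by omega, le_rfl, ?_⟩⟩
          by_contra hcon
          nlinarith
    · exact ⟨0, fun h => absurd h hl⟩
  choose j hj using key
  refine ⟨j, fun l hl => ?_, fun l hl => (hj l hl).2.2⟩
  obtain ⟨a1, a2, a3⟩ := hj l hl.le
  obtain ⟨b1, b2, b3⟩ := hj (l + 1) hl
  have := hi l hl
  have hne : j l ≠ j (l + 1) := by
    intro he
    rw [← he, pow_succ] at b3
    linarith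
  omega

lemma Alt.pos_root {γ γ' : ℝ} (h : 0 < γ) (h' : 0 < γ') {u : ℝ[X]} {p : ℕ} {s : ℝ}
    (H : Alt u p s) : Alt ((C γ + C (-1 * γ') * X) * u) (p + 1) s := by
  obtain ⟨i, hi, hs⟩ := H
  set w := (C γ + C (-1 * γ') * X) * u with hw
  -- start of a run
  have start : ∀ (c : ℝ) (k : ℕ), 0 < c * u.coeff k → ∃ j ≤ k, 0 < c * w.coeff j ∧
      ∀ j', j ≤ j' → j' ≤ k → 0 < c * u.coeff j' := by
    intro c k
    induction k with
    | zero =>
      intro hk
      refine ⟨0, le_rfl, ?_, fun j' _ hj => by rwa [Nat.le_zero.1 hj]⟩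
      rw [hw, coeff_lin_mul_zero]; nlinarith
    | succ k ih =>
      intro hk
      by_cases h1 : 0 < c * u.coeff k
      · obtain ⟨j, hj, h2, h3⟩ := ih h1
        refine ⟨j, by omega, h2, fun j' a b => ?_⟩
        rcases Nat.lt_or_ge k j' with h4 | h4
        · rwa [show j' = k + 1 by omega]
        · exact h3 j' a h4
      · refine ⟨k + 1, le_rfl, ?_, fun j' a b => by rwa [show j' = k + 1 by omega]⟩
        rw [hw, coeff_lin_mul_succ]; nlinarith
  -- end of a run
  have stop : ∀ (c : ℝ) (k : ℕ), 0 < c * u.coeff k → ∃ j, k < j ∧ 0 < -c * w.coeff j := by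
    intro c k hk
    by_contra hcon
    push Not at hcon
    have : ∀ t, 0 < c * u.coeff (k + t) := by
      intro t
      induction t with
      | zero => exact hk
      | succ t ih =>
        have := hcon (k + t + 1) (by omega)
        rw [hw, coeff_lin_mul_succ] at this
        rw [← add_assoc]
        by_contra hcon'
        nlinarith
    have h0 := this (u.natDegree + 1)
    rw [coeff_eq_zero_of_natDegree_lt (by omega)] at h0
    simp at h0
  have key : ∀ l, ∃ j, l ≤ p → (j ≤ i l ∧ 0 < (-1) ^ l * s * w.coeff j ∧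
      ∀ j', j ≤ j' → j' ≤ i l → 0 < (-1) ^ l * s * u.coeff j') := by
    intro l
    by_cases hl : l ≤ p
    · obtain ⟨j, hj⟩ := start _ _ (hs l hl)
      exact ⟨j, fun _ => hj⟩
    · exact ⟨0, fun h => absurd h hl⟩
  choose j hj using key
  obtain ⟨e, he, he'⟩ := stop _ _ (hs p le_rfl)
  refine ⟨fun l => if l ≤ p then j l else e, fun l hl => ?_, fun l hl => ?_⟩
  · have hl' : l ≤ p := by omega
    simp only [hl', if_true]
    split_ifs with h1
    · obtain ⟨a1, -, -⟩ := hj l hl'
      obtain ⟨b1, -, b3⟩ := hj (l + 1) h1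
      by_contra hcon
      have h2 := b3 (i l) (by omega) (hi l (by omega)).le
      have h3 := hs l hl'
      rw [pow_succ] at h2
      linarith
    · have := (hj l hl').1
      have : l = p := by omega
      subst this
      omega
  · simp only
    split_ifs with h1
    · exact (hj l h1).2.1
    · have : l = p + 1 := by omega
      subst this
      rw [pow_succ]
      linarith

lemma Alt.of_fac {n : ℕ} {B : ℝ[X]} (hB : Fac 1 n B) {u : ℝ[X]} {p : ℕ} {s : ℝ}
    (H : Alt (B * u) p s) : Alt u p s := by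
  induction hB with
  | const c hc =>
    obtain ⟨i, hi, hs⟩ := H
    refine ⟨i, hi, fun l hl => ?_⟩
    have := hs l hl
    rw [coeff_C_mul] at this
    by_contra hcon
    nlinarith
  | step γ γ' h h' _ ih =>
    rw [mul_assoc, one_mul] at H
    exact ih (H.of_neg_root h h')

lemma Alt.fac {n : ℕ} {A : ℝ[X]} (hA : Fac (-1) n A) {u : ℝ[X]} {p : ℕ} {s : ℝ}
    (H : Alt u p s) : Alt (A * u) (p + n) s := by
  induction hA with
  | const c hc =>
    obtain ⟨i, hi, hs⟩ := H
    refine ⟨i, hi, fun l hl => ?_⟩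
    have := hs l hl
    rw [coeff_C_mul]
    nlinarith
  | step γ γ' h h' _ ih =>
    rw [mul_assoc]
    exact ih.pos_root h h'

lemma alt_index {i : ℕ → ℕ} {p : ℕ} (hi : ∀ l < p, i l < i (l + 1)) (l t : ℕ) (h : l + t ≤ p) :
    i l + t ≤ i (l + t) := by
  induction t with
  | zero => simp
  | succ t ih =>
    have := ih (by omega)
    have := hi (l + t) (by omega)
    rw [← add_assoc l]
    omega

lemma Alt.le_natDegree {u : ℝ[X]} {p : ℕ} {s : ℝ} (H : Alt u p s) : p ≤ u.natDegree := by
  obtain ⟨i, hi, hs⟩ := H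
  have h1 := alt_index hi 0 p (by omega)
  have h2 : i p ≤ u.natDegree := le_natDegree_of_ne_zero fun h => by
    have := hs p le_rfl
    rw [h] at this; simp at this
  rw [zero_add] at h1
  omega

lemma Alt.extend {u : ℝ[X]} {p : ℕ} {s : ℝ} (H : Alt u p s) (H' : Alt u p (-s)) :
    ∃ s', Alt u (p + 1) s' := by
  have aux : ∀ {s : ℝ} {i i' : ℕ → ℕ}, (∀ l < p, i l < i (l + 1)) →
      (∀ l ≤ p, 0 < (-1) ^ l * s * u.coeff (i l)) → 0 < -s * u.coeff (i' 0) → i' 0 < i 0 →
      Alt u (p + 1) (-s) := by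
    intro s i i' hi hs h0 hlt
    refine ⟨fun l => Nat.casesOn l (i' 0) i, fun l hl => ?_, fun l hl => ?_⟩
    · cases l with
      | zero => exact hlt
      | succ l => exact hi l (by omega)
    · cases l with
      | zero => simpa using h0
      | succ l =>
        have := hs l (by omega)
        rw [pow_succ]
        simp only
        linarith
  obtain ⟨i, hi, hs⟩ := H
  obtain ⟨i', hi', hs'⟩ := H'
  have h0 := hs 0 (by omega)
  have h0' := hs' 0 (by omega)
  simp only [pow_zero, one_mul] at h0 h0'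
  rcases lt_trichotomy (i 0) (i' 0) with h | h | h
  · exact ⟨_, aux hi' hs' (by simpa using h0) h⟩
  · rw [← h] at h0'; linarith
  · exact ⟨_, aux hi hs h0' h⟩

/-- Non-vanishing of the Toeplitz determinants of the pencil on a half-line. -/
lemma tau_ne_zero {n n' : ℕ} {A B : ℝ[X]} (hA : Fac (-1) n A) (hB : Fac 1 n' B) {k : ℕ}
    (hk : k ≤ n) (m : ℕ) {z : ℝ} (hz : 0 ≤ (-1) ^ k * z) : tau (A + C z * B) k m ≠ 0 := by
  classical
  intro h0
  obtain ⟨x, hx, hMx⟩ := Matrix.exists_mulVec_eq_zero_iff.2 h0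
  set u : ℝ[X] := ∑ b : Fin m, C (x b) * X ^ (b : ℕ) with hu
  have hcoef : ∀ b : Fin m, u.coeff b = x b := by
    intro b
    simp only [hu, finsetSum_coeff, coeff_C_mul, coeff_X_pow]
    rw [Finset.sum_eq_single b] <;> simp +contextual [Fin.val_inj, eq_comm]
  have hdeg : u.natDegree < m := by
    obtain ⟨b, -⟩ := Function.ne_iff.1 hx
    have : u.natDegree ≤ m - 1 := by
      refine natDegree_sum_le_of_forall_le _ _ fun c _ => ?_
      refine (natDegree_C_mul_X_pow_le _ _).trans ?_
      have := c.isLt; omega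
    have := b.isLt
    omega
  have hmid : ∀ j, k ≤ j → j < k + m → (A * u).coeff j = -z * (B * u).coeff j := by
    intro j h1 h2
    have := congrFun hMx ⟨j - k, by omega⟩
    simp only [Matrix.mulVec, dotProduct, Matrix.of_apply, Pi.zero_apply] at this
    rw [show k + (j - k) = j by omega] at this
    have h3 : ((A + C z * B) * u).coeff j = 0 := by
      rw [← this, hu, Finset.mul_sum, finsetSum_coeff]
      refine Finset.sum_congr rfl fun b _ => ?_
      rw [mul_left_comm, coeff_C_mul, mul_comm]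
    rw [add_mul, coeff_add, mul_assoc, coeff_C_mul] at h3
    linarith
  have hex : ∃ s, Alt u 0 s := by
    obtain ⟨b, hb⟩ := Function.ne_iff.1 hx
    refine ⟨x b, fun _ => b, by simp, fun l hl => ?_⟩
    rw [Nat.le_zero.1 hl, hcoef]
    simpa using hb
  have hmax : ∃ p s, Alt u p s ∧ ∀ s', ¬ Alt u (p + 1) s' := by
    by_contra hcon
    push Not at hcon
    have : ∀ p, ∃ s, Alt u p s := by
      intro p
      induction p with
      | zero => exact hex
      | succ p ih => obtain ⟨s, hs⟩ := ih; exact hcon p s hs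
    obtain ⟨s, hs⟩ := this (u.natDegree + 1)
    have := hs.le_natDegree
    omega
  obtain ⟨p, s, H, hmax⟩ := hmax
  obtain ⟨i, hi, hs⟩ := H.fac hA
  have hlast : i (p + n) ≤ n + u.natDegree := by
    refine le_trans (le_natDegree_of_ne_zero fun h => ?_) (natDegree_mul_le.trans
      (Nat.add_le_add_right hA.natDegree_le _))
    have := hs (p + n) le_rfl
    rw [h] at this; simp at this
  have hin : ∀ l ≤ p, k ≤ i (k + l) ∧ i (k + l) < k + m := by
    intro l hl
    have h1 := alt_index hi 0 (k + l) (by omega)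
    have h2 := alt_index hi (k + l) (p + n - (k + l)) (by omega)
    rw [zero_add] at h1
    rw [show k + l + (p + n - (k + l)) = p + n by omega] at h2
    omega
  have H' : Alt (B * u) p (-s) := by
    refine ⟨fun l => i (k + l), fun l hl => hi (k + l) (by omega), fun l hl => ?_⟩
    have h1 := hs (k + l) (by omega)
    rw [hmid _ (hin l hl).1 (hin l hl).2, pow_add] at h1
    by_contra hcon
    have h2 := mul_nonneg hz (neg_nonneg.2 (not_lt.1 hcon))
    nlinarith
  obtain ⟨s', hs'⟩ := H.extend (H'.of_fac hB)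
  exact hmax s' hs'

end Pool.Agent.MP_4d57dd_an

end MrgPart1

-- ======== part 2: formerly Pool.Agent.MP_4d57dd_an.TN
section MrgPart2

/-!
# Positivity of Toeplitz minors
-/

namespace Pool.Agent.MP_4d57dd_an

open Polynomial

/-- The minor of the Toeplitz array of `p` with rows `I` and columns `0, …, m-1`. -/
noncomputable def mnr (p : ℝ[X]) {m : ℕ} (I : Fin m → ℕ) : ℝ :=
  (Matrix.of fun a b : Fin m => (p * X ^ (b : ℕ)).coeff (I a)).det

lemma mnr_step (p : ℝ[X]) (γ γ' : ℝ) {m : ℕ} (I : Fin m → ℕ) :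
    mnr ((C γ + C γ' * X) * p) I = ∑ s : Finset (Fin m),
      (∏ a, if a ∈ s then γ else γ') * (Matrix.of fun a b : Fin m =>
        if a ∈ s then (p * X ^ (b : ℕ)).coeff (I a)
        else (X * (p * X ^ (b : ℕ))).coeff (I a)).det := by
  classical
  have := (Matrix.detRowAlternating (n := Fin m) (R := ℝ)).toMultilinearMap.map_add_univ
    (fun a b => γ * (p * X ^ (b : ℕ)).coeff (I a))
    (fun a b => γ' * (X * (p * X ^ (b : ℕ))).coeff (I a))
  refine Eq.trans ?_ (this.trans ?_)
  · change _ = Matrix.det _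
    unfold mnr
    congr 1
    ext a b
    simp [add_mul, mul_assoc]
  · refine Finset.sum_congr rfl fun s _ => ?_
    rw [← Matrix.det_mul_column]
    change Matrix.det _ = _
    congr 1
    ext a b
    by_cases h : a ∈ s <;> simp [Finset.piecewise, h]

lemma mnr_term_nonneg {p : ℝ[X]}
    (hp : ∀ (m : ℕ) (I : Fin m → ℕ), StrictMono I → 0 ≤ mnr p I) {m : ℕ} {I : Fin m → ℕ}
    (hI : StrictMono I) (s : Finset (Fin m)) :
    0 ≤ (Matrix.of fun a b : Fin m => if a ∈ s then (p * X ^ (b : ℕ)).coeff (I a)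
        else (X * (p * X ^ (b : ℕ))).coeff (I a)).det := by
  classical
  by_cases h0 : ∃ a, a ∉ s ∧ I a = 0
  · obtain ⟨a, ha, h0⟩ := h0
    refine (Matrix.det_eq_zero_of_row_eq_zero a fun b => ?_).ge
    simp [ha, h0]
  push Not at h0
  let J : Fin m → ℕ := fun a => if a ∈ s then I a else I a - 1
  have hJ : (Matrix.of fun a b : Fin m => if a ∈ s then (p * X ^ (b : ℕ)).coeff (I a)
      else (X * (p * X ^ (b : ℕ))).coeff (I a)).det = mnr p J := by
    unfold mnr
    congr 1
    ext a b
    by_cases h : a ∈ s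
    · simp [J, h]
    · obtain ⟨i, hi⟩ := Nat.exists_eq_succ_of_ne_zero (h0 a h)
      simp [J, h, hi, coeff_X_mul]
  rw [hJ]
  have hmono : Monotone J := by
    intro a a' h
    rcases h.lt_or_eq with h | rfl
    · have := hI h
      simp only [J]
      split_ifs <;> omega
    · exact le_rfl
  by_cases hinj : Function.Injective J
  · exact hp m J (hmono.strictMono_of_injective hinj)
  · rw [Function.not_injective_iff] at hinj
    obtain ⟨a, a', h1, h2⟩ := hinj
    refine (Matrix.det_zero_of_row_eq h2 ?_).ge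
    ext b
    simp [h1]

lemma mnr_const_id (c : ℝ) (m : ℕ) : mnr (C c) (fun a : Fin m => (a : ℕ)) = c ^ m := by
  have : (Matrix.of fun a b : Fin m => (C c * X ^ (b : ℕ)).coeff (a : ℕ)) =
      Matrix.diagonal fun _ => c := by
    ext a b
    simp [Matrix.diagonal_apply, coeff_X_pow, Fin.val_inj]
  rw [mnr, this, Matrix.det_diagonal]
  simp

lemma Fac.mnr_nonneg {n : ℕ} {p : ℝ[X]} (h : Fac 1 n p) :
    ∀ (m : ℕ) (I : Fin m → ℕ), StrictMono I → 0 ≤ mnr p I := by
  induction h with
  | const c hc =>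
    intro m I hI
    by_cases h : ∀ a, I a < m
    · have h1 : StrictMono fun a => (⟨I a, h a⟩ : Fin m) := fun a b hab => hI hab
      have h2 : I = fun a : Fin m => (a : ℕ) := by
        ext a
        exact congrArg Fin.val (congrFun h1.eq_id a)
      rw [h2, mnr_const_id]
      positivity
    · push Not at h
      obtain ⟨a, ha⟩ := h
      refine (Matrix.det_eq_zero_of_row_eq_zero a fun b => ?_).ge
      have : I a ≠ b := by have := b.isLt; omega
      simp [coeff_X_pow, this]
  | step γ γ' h h' _ ih =>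
    intro m I hI
    rw [one_mul, mnr_step]
    refine Finset.sum_nonneg fun s _ => mul_nonneg ?_ (mnr_term_nonneg ih hI s)
    exact Finset.prod_nonneg fun a _ => by split_ifs <;> positivity

lemma Fac.tau_pos {n : ℕ} {p : ℝ[X]} (h : Fac 1 n p) :
    ∀ k ≤ n, ∀ m, 0 < tau p k m := by
  induction h with
  | const c hc =>
    intro k hk m
    obtain rfl : k = 0 := by omega
    have : tau (C c) 0 m = mnr (C c) (fun a : Fin m => (a : ℕ)) := by simp [tau, dt, mnr]
    rw [this, mnr_const_id]
    positivity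
  | @step n p γ γ' h h' hp ih =>
    intro k hk m
    change 0 < mnr _ (fun a : Fin m => k + (a : ℕ))
    have hI : StrictMono fun a : Fin m => k + (a : ℕ) := fun a b hab => by
      simpa using hab
    rw [one_mul, mnr_step]
    refine Finset.sum_pos' (fun s _ => mul_nonneg ?_ (mnr_term_nonneg hp.mnr_nonneg hI s)) ?_
    · exact Finset.prod_nonneg fun a _ => by split_ifs <;> positivity
    · rcases k with _ | k
      · refine ⟨Finset.univ, Finset.mem_univ _, mul_pos ?_ ?_⟩
        · exact Finset.prod_pos fun a _ => by split_ifs <;> positivity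
        · simpa [tau, dt] using ih 0 (by omega) m
      · refine ⟨∅, Finset.mem_univ _, mul_pos ?_ ?_⟩
        · exact Finset.prod_pos fun a _ => by split_ifs <;> positivity
        · have := ih k (by omega) m
          simp only [Finset.notMem_empty, if_false, show ∀ a : Fin m, k + 1 + (a : ℕ) = k + a + 1
            from fun a => by ring, coeff_X_mul]
          exact this

lemma coeff_comp_neg (p : ℝ[X]) (i : ℕ) : (p.comp (-X)).coeff i = (-1) ^ i * p.coeff i := by
  have := comp_C_mul_X_coeff (p := p) (r := (-1 : ℝ)) (n := i)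
  rw [mul_comm, ← this]
  simp

lemma tau_comp_neg (p : ℝ[X]) (k m : ℕ) : tau (p.comp (-X)) k m = (-1) ^ (k * m) * tau p k m := by
  have h1 : (Matrix.of fun a b : Fin m => (p.comp (-X) * X ^ (b : ℕ)).coeff (k + a)) =
      Matrix.of fun a b : Fin m => ((-1) ^ k * (-1) ^ (a : ℕ)) * Matrix.of (fun a b : Fin m =>
        (-1) ^ (b : ℕ) * (Matrix.of fun a b : Fin m =>
          (p * X ^ (b : ℕ)).coeff (k + a)) a b) a b := by
    ext a b
    have h2 := coeff_comp_neg (p * X ^ (b : ℕ)) (k + a)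
    rw [mul_comp, X_pow_comp, neg_pow, mul_left_comm, show ((-1 : ℝ[X]) ^ (b : ℕ)) =
      C ((-1) ^ (b : ℕ)) by simp, coeff_C_mul] at h2
    have h3 : ((-1 : ℝ) ^ (b : ℕ)) * (-1) ^ (b : ℕ) = 1 := by rw [← mul_pow]; simp
    simp only [Matrix.of_apply]
    rw [pow_add] at h2
    linear_combination (-1) ^ (b : ℕ) * h2 -
      (p.comp (-X) * X ^ (b : ℕ)).coeff (k + a) * h3
  rw [tau, dt, h1, Matrix.det_mul_column, Matrix.det_mul_row, Finset.prod_mul_distrib]
  have h3 : (∏ a : Fin m, (-1 : ℝ) ^ (a : ℕ)) * ∏ a : Fin m, (-1 : ℝ) ^ (a : ℕ) = 1 := by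
    rw [← Finset.prod_mul_distrib]
    exact Finset.prod_eq_one fun a _ => by rw [← mul_pow]; simp
  rw [Finset.prod_const, Finset.card_univ, Fintype.card_fin, ← pow_mul]
  change _ = _ * Matrix.det _
  linear_combination (-1) ^ (k * m) * (Matrix.of fun a b : Fin m =>
    (p * X ^ (b : ℕ)).coeff (k + a)).det * h3

lemma Fac.tau_sign {n : ℕ} {p : ℝ[X]} (h : Fac (-1) n p) {k : ℕ} (hk : k ≤ n) (m : ℕ) :
    0 < (-1) ^ (k * m) * tau p k m := by
  rw [← tau_comp_neg]
  have := h.comp_neg
  rw [neg_neg] at this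
  exact this.tau_pos k hk m

end Pool.Agent.MP_4d57dd_an

end MrgPart2

-- ======== part 3: formerly Pool.Agent.MP_4d57dd_an.Sturm
section MrgPart3

/-!
# Sturm chains and the level step
-/

namespace Pool.Agent.MP_4d57dd_an

open Polynomial Finset

lemma exists_root_of_sign {p : ℝ[X]} {a b c : ℝ} (hab : a < b) (ha : 0 < c * p.eval a)
    (hb : 0 < -c * p.eval b) : ∃ x ∈ Set.Ioo a b, p.eval x = 0 := by
  have hc : ContinuousOn (fun x => c * p.eval x) (Set.Icc a b) := by fun_prop
  obtain ⟨x, hx, h⟩ := intermediate_value_Ioo' hab.le hc (show (0 : ℝ) ∈ _ from ⟨by linarith, ha⟩)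
  refine ⟨x, hx, ?_⟩
  rcases mul_eq_zero.1 h with h | h
  · rw [h] at ha; simp at ha
  · exact h

lemma eq_prod_of_roots {p : ℝ[X]} {m : ℕ} (hp : p.natDegree ≤ m) {lam : ℕ → ℝ}
    (hl : ∀ i j, i < j → j < m → lam i < lam j) (h0 : ∀ i < m, p.eval (lam i) = 0) (x : ℝ) :
    p.eval x = p.coeff m * ∏ j ∈ range m, (x - lam j) := by
  have hinj : Set.InjOn lam (range m) := by
    intro i hi j hj h
    simp only [coe_range, Set.mem_Iio] at hi hj
    rcases lt_trichotomy i j with h' | h' | h'
    · exact absurd h (hl i j h' hj).ne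
    · exact h'
    · exact absurd h (hl j i h' hi).ne'
  set q : ℝ[X] := ∏ j ∈ range m, (X - C (lam j)) with hq
  have hqm : q.Monic := monic_prod_of_monic _ _ fun j _ => monic_X_sub_C _
  have hqd : q.natDegree = m := by
    rw [hq, natDegree_prod_of_monic _ _ fun j _ => monic_X_sub_C _]; simp
  have : p = C (p.coeff m) * q := by
    refine eq_of_degree_sub_lt_of_eval_finset_eq ((range m).image lam) ?_ ?_
    · rw [card_image_of_injOn hinj, card_range, degree_lt_iff_coeff_zero]
      intro k hk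
      rw [coeff_sub, coeff_C_mul]
      rcases hk.lt_or_eq with hk | rfl
      · rw [coeff_eq_zero_of_natDegree_lt (p := p) (by omega),
          coeff_eq_zero_of_natDegree_lt (p := q) (by omega)]
        simp
      · have : q.coeff m = 1 := by rw [← hqd]; exact hqm
        rw [this]; simp
    · intro x hx
      obtain ⟨i, hi, rfl⟩ := mem_image.1 hx
      rw [h0 i (mem_range.1 hi), eval_mul, hq, eval_prod, prod_eq_zero hi (by simp), mul_zero]
  conv_lhs => rw [this]
  simp [hq, eval_prod]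

lemma sturm (F : ℕ → ℝ[X]) (ha : ∀ m, (F m).natDegree ≤ m)
    (hb : ∀ m, 0 < (-1) ^ m * (F m).coeff m) (hc : ∀ m, 0 < (F m).eval 0)
    (hd : ∀ m x, 0 < x → (F (m + 1)).eval x = 0 → (F (m + 2)).eval x * (F m).eval x < 0)
    (m : ℕ) : ∃ lam : ℕ → ℝ, (∀ i < m, 0 < lam i) ∧ (∀ i j, i < j → j < m → lam i < lam j) ∧
      ∀ i < m, (F m).eval (lam i) = 0 ∧ 0 < (-1) ^ (i + 1) * (F (m + 1)).eval (lam i) := by
  induction m with
  | zero => exact ⟨fun _ => 0, by simp, by simp, by simp⟩
  | succ m ih =>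
    obtain ⟨lam, hpos, hmono, hz⟩ := ih
    obtain ⟨Y, hY0, hY1, hY2⟩ : ∃ Y : ℝ, 0 < Y ∧ (∀ i < m, lam i < Y) ∧
        0 < (-1) ^ (m + 1) * (F (m + 1)).eval Y := by
      set G := C ((-1 : ℝ) ^ (m + 1)) * F (m + 1) with hG
      have hG1 : 0 < G.coeff (m + 1) := by rw [hG, coeff_C_mul]; exact hb _
      have hG2 : G.natDegree = m + 1 :=
        le_antisymm ((natDegree_C_mul_le _ _).trans (ha _)) (le_natDegree_of_ne_zero hG1.ne')
      have hG3 := G.tendsto_atTop_of_leadingCoeff_nonneg
        (natDegree_pos_iff_degree_pos.1 (by omega)) (by rw [leadingCoeff, hG2]; exact hG1.le)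
      have h1 := hG3.eventually_gt_atTop 0
      have h2 := Filter.eventually_gt_atTop (0 : ℝ)
      have h3 : ∀ᶠ Y in Filter.atTop, ∀ i ∈ range m, lam i < Y :=
        (Filter.eventually_all_finset _).2 fun i _ => Filter.eventually_gt_atTop _
      obtain ⟨Y, a1, a2, a3⟩ := (h1.and (h2.and h3)).exists
      refine ⟨Y, a2, fun i hi => a3 i (mem_range.2 hi), ?_⟩
      simpa [hG] using a1
    let e : ℕ → ℝ := fun i => if i = 0 then 0 else if i ≤ m then lam (i - 1) else Y
    have he0 : e 0 = 0 := rfl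
    have he1 : ∀ i < m, e (i + 1) = lam i := by
      intro i hi
      simp [e, Nat.succ_le_of_lt hi]
    have he2 : e (m + 1) = Y := by simp [e]
    have hemono : ∀ i j, i < j → j ≤ m + 1 → e i < e j := by
      intro i j hij hj
      obtain ⟨j, rfl⟩ : ∃ k, j = k + 1 := ⟨j - 1, by omega⟩
      rcases i with _ | i
      · rw [he0]
        rcases Nat.lt_or_ge j m with h | h
        · rw [he1 j h]; exact hpos j h
        · rw [show j = m by omega, he2]; exact hY0
      · rw [he1 i (by omega)]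
        rcases Nat.lt_or_ge j m with h | h
        · rw [he1 j h]; exact hmono i j (by omega) h
        · rw [show j = m by omega, he2]; exact hY1 i (by omega)
    have hesign : ∀ i ≤ m + 1, 0 < (-1) ^ i * (F (m + 1)).eval (e i) := by
      intro i hi
      rcases i with _ | i
      · simpa [he0] using hc _
      · rcases Nat.lt_or_ge i m with h | h
        · rw [he1 i h]; exact (hz i h).2
        · rw [show i = m by omega, he2]; exact hY2
    have key : ∀ i, ∃ x, i ≤ m → x ∈ Set.Ioo (e i) (e (i + 1)) ∧ (F (m + 1)).eval x = 0 := by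
      intro i
      by_cases hi : i ≤ m
      · obtain ⟨x, hx⟩ := exists_root_of_sign (hemono i (i + 1) (by omega) (by omega))
          (hesign i (by omega)) (by
            have := hesign (i + 1) (by omega)
            rw [pow_succ] at this
            linarith)
        exact ⟨x, fun _ => hx⟩
      · exact ⟨0, fun h => absurd h hi⟩
    choose μ hμ using key
    have hele : ∀ i j, i ≤ j → j ≤ m + 1 → e i ≤ e j := by
      intro i j hij hj
      rcases hij.lt_or_eq with h | rfl
      · exact (hemono i j h hj).le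
      · exact le_rfl
    have hμpos : ∀ i < m + 1, 0 < μ i := fun i hi =>
      lt_of_le_of_lt (hele 0 i (by omega) (by omega)) (hμ i (by omega)).1.1
    refine ⟨μ, hμpos, fun i j hij hj => ?_, fun i hi => ⟨(hμ i (by omega)).2, ?_⟩⟩
    · exact ((hμ i (by omega)).1.2.trans_le (hele _ _ hij (by omega))).trans
        (hμ j (by omega)).1.1
    · have h1 := hd m _ (hμpos i hi) (hμ i (by omega)).2
      have h2 : 0 < (-1) ^ i * (F m).eval (μ i) := by
        rw [eq_prod_of_roots (ha m) hmono (fun i hi => (hz i hi).1),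
          ← prod_range_mul_prod_Ico _ (show i ≤ m by omega)]
        have h3 : 0 < ∏ j ∈ range i, (μ i - lam j) := by
          refine prod_pos fun j hj => sub_pos.2 ?_
          have hj' := mem_range.1 hj
          rw [← he1 j (by omega)]
          exact (hele _ _ hj' (by omega)).trans_lt (hμ i (by omega)).1.1
        have h4 : 0 < ∏ j ∈ Ico i m, (lam j - μ i) := by
          refine prod_pos fun j hj => sub_pos.2 ?_
          have hj' := mem_Ico.1 hj
          rw [← he1 j hj'.2]
          exact (hμ i (by omega)).1.2.trans_le (hele _ _ (by omega) (by omega))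
        have h5 : ∏ j ∈ Ico i m, (μ i - lam j) = (-1) ^ (m - i) * ∏ j ∈ Ico i m, (lam j - μ i) := by
          rw [← Nat.card_Ico, ← prod_const, ← prod_mul_distrib]
          exact prod_congr rfl fun j _ => by ring
        have h6 : (-1 : ℝ) ^ m = (-1) ^ i * (-1) ^ (m - i) := by
          rw [← pow_add]; congr 1; omega
        have h7 := hb m
        rw [h6] at h7
        rw [h5]
        have := mul_pos (mul_pos h7 h3) h4
        linarith
      have h3 : ((-1 : ℝ) ^ i) * (-1) ^ i = 1 := by rw [← mul_pow]; simp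
      rw [pow_succ]
      by_contra hcon
      have := mul_nonneg (neg_nonneg.2 (not_lt.1 hcon)) h2.le
      nlinarith

/-- `g` has at least `M - c` distinct real roots in `S`. -/
def Many (g : ℝ[X]) (S : Set ℝ) (M c : ℕ) : Prop :=
  ∃ s : Finset ℝ, (∀ x ∈ s, x ∈ S ∧ g.eval x = 0) ∧ M ≤ s.card + c

lemma card_le_natDegree {g : ℝ[X]} (hg : g ≠ 0) (s : Finset ℝ) (hs : ∀ x ∈ s, g.eval x = 0) :
    s.card ≤ g.natDegree := by
  refine le_trans (card_le_card ?_) ((Multiset.toFinset_card_le _).trans (card_roots' g))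
  intro x hx
  simpa [hg] using hs x hx

lemma Many.few {g : ℝ[X]} (hg : g ≠ 0) {S S' : Set ℝ} (hS : Disjoint S S') {M c : ℕ}
    (hM : g.natDegree ≤ M) (h : Many g S M c) (s' : Finset ℝ)
    (hs' : ∀ x ∈ s', x ∈ S' ∧ g.eval x = 0) : s'.card ≤ c := by
  obtain ⟨s, hs, hc⟩ := h
  have hd : Disjoint s s' := by
    rw [Finset.disjoint_left]
    intro x h1 h2
    exact Set.disjoint_left.1 hS (hs x h1).1 (hs' x h2).1
  have := card_le_natDegree hg (s ∪ s') fun x hx => by
    rcases mem_union.1 hx with h | h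
    · exact (hs x h).2
    · exact (hs' x h).2
  rw [card_union_of_disjoint hd] at this
  omega

/-- The level step: sign alternation of `g * g'` at `m` increasing points. -/
lemma level {g g' : ℝ[X]} {m : ℕ} {lam : ℕ → ℝ} (hl : ∀ i j, i < j → j < m → lam i < lam j)
    {δ : ℝ} (hδ : ∀ i < m, δ < lam i) {σ : ℝ}
    (hs : ∀ i < m, g'.eval (lam i) ≠ 0 → 0 < (-1) ^ i * σ * (g * g').eval (lam i))
    {Z : ℕ} (hZ : ∀ s' : Finset ℝ, (∀ x ∈ s', x ∈ Set.Ioi δ ∧ g'.eval x = 0) → s'.card ≤ Z) :
    Many g (Set.Ioi δ) m (1 + 3 * Z) := by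
  classical
  have hinj : Set.InjOn lam (range m) := by
    intro i hi j hj h
    simp only [coe_range, Set.mem_Iio] at hi hj
    rcases lt_trichotomy i j with h' | h' | h'
    · exact absurd h (hl i j h' hj).ne
    · exact h'
    · exact absurd h (hl j i h' hi).ne'
  set T := (range m).filter fun i => g'.eval (lam i) = 0 with hT
  have hTc : T.card ≤ Z := by
    rw [← card_image_of_injOn (hinj.mono (by rw [hT]; exact_mod_cast filter_subset _ _))]
    refine hZ _ fun x hx => ?_
    obtain ⟨i, hi, rfl⟩ := mem_image.1 hx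
    obtain ⟨h1, h2⟩ := mem_filter.1 hi
    exact ⟨hδ i (mem_range.1 h1), h2⟩
  set W := (range (m - 1)).filter fun i => i ∉ T ∧ i + 1 ∉ T with hW
  have hWc : m - 1 ≤ W.card + 2 * Z := by
    have : range (m - 1) ⊆ W ∪ (T ∪ T.image (· - 1)) := by
      intro i hi
      by_cases h1 : i ∈ T
      · exact mem_union_right _ (mem_union_left _ h1)
      by_cases h2 : i + 1 ∈ T
      · exact mem_union_right _ (mem_union_right _ (mem_image.2 ⟨_, h2, rfl⟩))
      exact mem_union_left _ (mem_filter.2 ⟨hi, h1, h2⟩)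
    have h1 := card_le_card this
    have h2 := card_union_le W (T ∪ T.image (· - 1))
    have h3 := card_union_le T (T.image (· - 1))
    have h4 := card_image_le (s := T) (f := (· - 1))
    rw [card_range] at h1
    omega
  have key : ∀ i, ∃ x, i ∈ W → x ∈ Set.Ioo (lam i) (lam (i + 1)) ∧ (g * g').eval x = 0 := by
    intro i
    by_cases hi : i ∈ W
    · obtain ⟨h1, h2, h3⟩ := mem_filter.1 hi
      have h1' := mem_range.1 h1
      have a1 := hs i (by omega) fun h => h2 (mem_filter.2 ⟨mem_range.2 (by omega), h⟩)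
      have a2 := hs (i + 1) (by omega) fun h => h3 (mem_filter.2 ⟨mem_range.2 (by omega), h⟩)
      obtain ⟨x, hx⟩ := exists_root_of_sign (hl i (i + 1) (by omega) (by omega)) a1 (by
        rw [pow_succ] at a2
        linarith)
      exact ⟨x, fun _ => hx⟩
    · exact ⟨0, fun h => absurd h hi⟩
  choose ρ hρ using key
  have hWlt : ∀ i ∈ W, i + 1 < m := fun i hi => by
    have := mem_range.1 (mem_filter.1 hi).1; omega
  have hρlt : ∀ i ∈ W, ∀ j ∈ W, i < j → ρ i < ρ j := by
    intro i hi j hj hij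
    refine (hρ i hi).1.2.trans_le (le_trans ?_ (hρ j hj).1.1.le)
    rcases (Nat.succ_le_of_lt hij).lt_or_eq with h | h
    · exact (hl _ _ h (by have := hWlt j hj; omega)).le
    · rw [← h]
  have hρinj : Set.InjOn ρ W := by
    intro i hi j hj h
    rcases lt_trichotomy i j with h' | h' | h'
    · exact absurd h (hρlt i hi j hj h').ne
    · exact h'
    · exact absurd h (hρlt j hj i hi h').ne'
  have hmem : ∀ x ∈ W.image ρ, x ∈ Set.Ioi δ ∧ (g * g').eval x = 0 := by
    intro x hx
    obtain ⟨i, hi, rfl⟩ := mem_image.1 hx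
    exact ⟨(hδ i (by have := hWlt i hi; omega)).trans (hρ i hi).1.1, (hρ i hi).2⟩
  refine ⟨(W.image ρ).filter fun x => g.eval x = 0, fun x hx => ?_, ?_⟩
  · obtain ⟨h1, h2⟩ := mem_filter.1 hx
    exact ⟨(hmem x h1).1, h2⟩
  · have h1 := card_filter_add_card_filter_not (s := W.image ρ) fun x => g.eval x = 0
    have h2 := hZ ((W.image ρ).filter fun x => ¬ g.eval x = 0) fun x hx => by
      obtain ⟨h1, h2⟩ := mem_filter.1 hx
      refine ⟨(hmem x h1).1, ?_⟩
      have := (hmem x h1).2
      rw [eval_mul] at this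
      exact (mul_eq_zero.1 this).resolve_left h2
    rw [card_image_of_injOn hρinj] at h1
    omega

end Pool.Agent.MP_4d57dd_an

end MrgPart3

-- ======== part 4: formerly Pool.Agent.MP_4d57dd_an.Generic
section MrgPart4

/-!
# The generic pencil
-/

namespace Pool.Agent.MP_4d57dd_an

open Polynomial Finset

/-- The pencil `A(t) + z B(t)` as a polynomial in `t` over `ℝ[z]`. -/
noncomputable def pen (A B : ℝ[X]) : ℝ[X][X] := A.map C + C X * B.map C

lemma pen_map_eval (A B : ℝ[X]) (z : ℝ) : (pen A B).map (evalRingHom z) = A + C z * B := by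
  have : (evalRingHom z).comp C = RingHom.id ℝ := by ext; simp
  simp [pen, Polynomial.map_map, this]

lemma eval_tau (A B : ℝ[X]) (z : ℝ) (k m : ℕ) :
    (tau (pen A B) k m).eval z = tau (A + C z * B) k m := by
  rw [← pen_map_eval, ← map_tau]; rfl

lemma pen_coeff (A B : ℝ[X]) (b i : ℕ) :
    (pen A B * X ^ b).coeff i = X * C ((B * X ^ b).coeff i) + C ((A * X ^ b).coeff i) := by
  have h1 : ∀ p : ℝ[X], (p.map C * X ^ b : ℝ[X][X]).coeff i = C ((p * X ^ b).coeff i) := by
    intro p
    rw [← coeff_map]; simp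
  rw [pen, add_mul, coeff_add, mul_assoc, coeff_C_mul, h1, h1, add_comm]

lemma tau_pen_eq (A B : ℝ[X]) (k m : ℕ) : tau (pen A B) k m =
    ((X : ℝ[X]) • (Matrix.of fun a b : Fin m => (B * X ^ (b : ℕ)).coeff (k + a)).map C +
      (Matrix.of fun a b : Fin m => (A * X ^ (b : ℕ)).coeff (k + a)).map C).det := by
  rw [tau, dt]
  congr 1
  ext a b : 2
  simp [pen_coeff]

lemma natDegree_tau (A B : ℝ[X]) (k m : ℕ) : (tau (pen A B) k m).natDegree ≤ m := by
  rw [tau_pen_eq]
  have := natDegree_det_X_add_C_le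
    (Matrix.of fun a b : Fin m => (B * X ^ (b : ℕ)).coeff (k + a))
    (Matrix.of fun a b : Fin m => (A * X ^ (b : ℕ)).coeff (k + a))
  rwa [Fintype.card_fin] at this

lemma coeff_tau (A B : ℝ[X]) (k m : ℕ) : (tau (pen A B) k m).coeff m = tau B k m := by
  rw [tau_pen_eq]
  have := coeff_det_X_add_C_card
    (Matrix.of fun a b : Fin m => (B * X ^ (b : ℕ)).coeff (k + a))
    (Matrix.of fun a b : Fin m => (A * X ^ (b : ℕ)).coeff (k + a))
  rwa [Fintype.card_fin] at this

lemma natDegree_det_le {m : ℕ} (M : Matrix (Fin m) (Fin m) ℝ[X]) (c : Fin m → ℕ)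
    (h : ∀ i j, (M i j).natDegree ≤ c j) : M.det.natDegree ≤ ∑ j, c j := by
  rw [Matrix.det_apply]
  refine natDegree_sum_le_of_forall_le _ _ fun σ _ => ?_
  refine (natDegree_smul_le _ _).trans ((natDegree_prod_le _ _).trans ?_)
  exact sum_le_sum fun j _ => h _ _

lemma natDegree_gam (A B : ℝ[X]) (ν : ℝ[X][X]) {L : ℕ} (hν : ∀ i, (ν.coeff i).natDegree ≤ L)
    (k m : ℕ) : (gam (pen A B) ν k m).natDegree ≤ m + L := by
  refine (natDegree_det_le _ (Fin.cons L fun _ => 1) fun i j => ?_).trans ?_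
  · refine Fin.cases ?_ (fun j => ?_) j
    · exact hν _
    · simp only [Matrix.of_apply, Fin.val_succ, gamArr, Fin.cons_succ, pen_coeff]
      compute_degree
  · simp [Fin.sum_univ_succ, add_comm]

lemma tau_half {n n' : ℕ} {A B : ℝ[X]} (hA : Fac (-1) n A) (hB : Fac 1 n' B) {k : ℕ}
    (hk : k ≤ n) (m : ℕ) {z : ℝ} (hz : 0 ≤ (-1) ^ k * z) :
    0 < (-1) ^ (k * m) * (tau (pen A B) k m).eval z := by
  by_contra hcon
  have hc : ContinuousOn (fun s : ℝ => (-1) ^ (k * m) * (tau (pen A B) k m).eval (s * z))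
      (Set.Icc 0 1) := by fun_prop
  obtain ⟨s, hs, h⟩ := intermediate_value_Icc' zero_le_one hc (show (0 : ℝ) ∈ _ from ⟨by
    simpa using hcon, by
    simp only [zero_mul, eval_tau, map_zero, add_zero]
    exact (hA.tau_sign hk m).le⟩)
  simp only [eval_tau] at h
  refine tau_ne_zero hA hB hk m (z := s * z) ?_ ((mul_eq_zero.1 h).resolve_left (by simp))
  have := mul_nonneg hs.1 hz
  linarith

/-- Reflection of the variable by the sign `(-1)^κ`. -/
noncomputable def rf (κ : ℕ) (g : ℝ[X]) : ℝ[X] := g.comp (C ((-1) ^ κ) * X)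

lemma eval_rf (κ : ℕ) (g : ℝ[X]) (x : ℝ) : (rf κ g).eval x = g.eval ((-1) ^ κ * x) := by
  simp [rf, eval_comp]

lemma natDegree_rf (κ : ℕ) (g : ℝ[X]) : (rf κ g).natDegree ≤ g.natDegree := by
  refine natDegree_comp_le.trans ?_
  have : (C ((-1 : ℝ) ^ κ) * X).natDegree ≤ 1 := by compute_degree
  nlinarith

lemma rf_ne_zero (κ : ℕ) {g : ℝ[X]} (hg : g ≠ 0) : rf κ g ≠ 0 := by
  intro h
  apply hg
  ext i
  have := congrArg (coeff · i) h
  simp only [rf, comp_C_mul_X_coeff] at this
  simpa using this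

lemma neg_one_pow_sq (j : ℕ) : ((-1 : ℝ) ^ j) * (-1) ^ j = 1 := by rw [← mul_pow]; simp

lemma sturm_pen {n : ℕ} {A B : ℝ[X]} (hA : Fac (-1) n A) (hB : Fac 1 n B) {κ : ℕ}
    (hκ : κ + 2 ≤ n) (m : ℕ) : ∃ lam : ℕ → ℝ, (∀ i < m, 0 < lam i) ∧
      (∀ i j, i < j → j < m → lam i < lam j) ∧
      ∀ i < m, (tau (pen A B) (κ + 1) m).eval ((-1) ^ κ * lam i) = 0 ∧
        0 < (-1) ^ (i + 1) * ((-1) ^ ((κ + 1) * (m + 1)) *
          (tau (pen A B) (κ + 1) (m + 1)).eval ((-1) ^ κ * lam i)) := by
  obtain ⟨lam, h1, h2, h3⟩ := sturm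
    (fun m => C ((-1) ^ ((κ + 1) * m)) * rf κ (tau (pen A B) (κ + 1) m))
    (fun m => (natDegree_C_mul_le _ _).trans ((natDegree_rf _ _).trans (natDegree_tau _ _ _ _)))
    (fun m => by
      rw [coeff_C_mul, rf, comp_C_mul_X_coeff, coeff_tau, ← pow_mul, add_mul, pow_add, one_mul]
      have := hB.tau_pos (κ + 1) (by omega) m
      have h1 := neg_one_pow_sq m
      have h2 := neg_one_pow_sq (κ * m)
      calc (0 : ℝ) < tau B (κ + 1) m := this
        _ = ((-1) ^ m * (-1) ^ m) * ((-1) ^ (κ * m) * (-1) ^ (κ * m)) * tau B (κ + 1) m := by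
          rw [h1, h2]; ring
        _ = _ := by ring)
    (fun m => by
      rw [eval_mul, eval_C, eval_rf]
      exact tau_half hA hB (by omega) m (by simp))
    (fun m x hx h0 => by
      simp only [eval_mul, eval_C, eval_rf] at h0 ⊢
      have h0' := (mul_eq_zero.1 h0).resolve_left (by simp)
      have hdj := congrArg (eval ((-1) ^ κ * x)) (tau_dj (pen A B) κ m)
      simp only [eval_mul, eval_sub, eval_pow, h0'] at hdj
      have hz : 0 ≤ (-1) ^ κ * ((-1) ^ κ * x) := by
        rw [← mul_assoc, neg_one_pow_sq, one_mul]; exact hx.le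
      have a1 := tau_half hA hB (k := κ) (by omega) (m + 1) hz
      have a2 := tau_half hA hB (k := κ + 2) (by omega) (m + 1)
        (z := (-1) ^ κ * x) (by rw [pow_add]; simpa using hz)
      have e1 : (-1 : ℝ) ^ ((κ + 2) * (m + 1)) = (-1) ^ (κ * (m + 1)) := by
        rw [add_mul, pow_add, pow_mul (-1 : ℝ) 2]; simp
      have e2 : (-1 : ℝ) ^ ((κ + 1) * (m + 2)) = (-1) ^ ((κ + 1) * m) := by
        rw [mul_add, pow_add, mul_comm (κ + 1) 2, pow_mul (-1 : ℝ) 2]; simp
      rw [e1] at a2
      rw [e2]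
      have a3 := mul_pos a1 a2
      have h1 := neg_one_pow_sq (κ * (m + 1))
      have h2 := neg_one_pow_sq ((κ + 1) * m)
      generalize (-1 : ℝ) ^ (κ * (m + 1)) = s1 at *
      generalize (-1 : ℝ) ^ ((κ + 1) * m) = s2 at *
      generalize eval _ (tau (pen A B) (κ + 1) (m + 2)) = u1 at *
      generalize eval _ (tau (pen A B) (κ + 1) m) = u2 at *
      generalize eval _ (tau (pen A B) (κ + 2) (m + 1)) = u3 at *
      generalize eval _ (tau (pen A B) κ (m + 1)) = u4 at *
      have : s2 * u1 * (s2 * u2) = -(s1 * u4 * (s1 * u3)) := by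
        linear_combination (u1 * u2) * h2 + (u3 * u4) * h1 + hdj
      linarith) m
  refine ⟨lam, h1, h2, fun i hi => ?_⟩
  obtain ⟨a1, a2⟩ := h3 i hi
  simp only [eval_mul, eval_C, eval_rf] at a1 a2
  exact ⟨(mul_eq_zero.1 a1).resolve_left (by simp), a2⟩

/-- The constant lost over `j` levels. -/
def cst (L : ℕ) : ℕ → ℕ
  | 0 => L
  | j + 1 => L + (1 + 3 * cst L j)

lemma le_cst (L j : ℕ) : L ≤ cst L j := by cases j <;> simp [cst]

lemma generic {n : ℕ} {A B : ℝ[X]} (hA : Fac (-1) n A) (hB : Fac 1 n B) (ν : ℝ[X][X]) {L : ℕ}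
    (hν : ∀ i, (ν.coeff i).natDegree ≤ L) (m j : ℕ) : ∀ κ, ν.natDegree < κ + 1 + j →
    κ + 2 + j ≤ n → ∀ δ : ℝ, 0 ≤ δ →
    (∀ x, 0 < x → x ≤ δ → (tau (pen A B) (κ + 1) m).eval ((-1) ^ κ * x) ≠ 0) →
    Many (rf κ (gam (pen A B) ν κ m)) (Set.Ioi δ) (m + L) (cst L j) := by
  have main : ∀ κ, κ + 2 ≤ n → ∀ δ : ℝ, 0 ≤ δ →
      (∀ x, 0 < x → x ≤ δ → (tau (pen A B) (κ + 1) m).eval ((-1) ^ κ * x) ≠ 0) →
      (gam (pen A B) ν (κ + 1) m = 0 → Many (rf κ (gam (pen A B) ν κ m)) (Set.Ioi δ) m 0) ∧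
      ∀ Z : ℕ, (∀ s' : Finset ℝ, (∀ x ∈ s', x ∈ Set.Ioi δ ∧
        (rf κ (gam (pen A B) ν (κ + 1) m)).eval x = 0) → s'.card ≤ Z) →
        Many (rf κ (gam (pen A B) ν κ m)) (Set.Ioi δ) m (1 + 3 * Z) := by
    intro κ hκ δ hδ hz
    obtain ⟨lam, h1, h2, h3⟩ := sturm_pen hA hB hκ m
    have hδ' : ∀ i < m, δ < lam i := by
      intro i hi
      by_contra hcon
      exact hz _ (h1 i hi) (not_lt.1 hcon) (h3 i hi).1
    have hdj : ∀ i < m, (tau (pen A B) (κ + 1) (m + 1)).eval ((-1) ^ κ * lam i) *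
        (gam (pen A B) ν κ m).eval ((-1) ^ κ * lam i) =
        (gam (pen A B) ν (κ + 1) m).eval ((-1) ^ κ * lam i) *
          (tau (pen A B) κ (m + 1)).eval ((-1) ^ κ * lam i) := by
      intro i hi
      have := congrArg (eval ((-1) ^ κ * lam i)) (gam_dj (pen A B) ν κ m)
      simp only [eval_mul, eval_sub, (h3 i hi).1] at this
      linarith
    constructor
    · intro h0
      classical
      have hinj : Set.InjOn lam (range m) := by
        intro i hi j hj h
        simp only [coe_range, Set.mem_Iio] at hi hj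
        rcases lt_trichotomy i j with h' | h' | h'
        · exact absurd h (h2 i j h' hj).ne
        · exact h'
        · exact absurd h (h2 j i h' hi).ne'
      refine ⟨(range m).image lam, fun x hx => ?_, by rw [card_image_of_injOn hinj]; simp⟩
      obtain ⟨i, hi, rfl⟩ := mem_image.1 hx
      have hi' := mem_range.1 hi
      refine ⟨hδ' i hi', ?_⟩
      have := hdj i hi'
      rw [h0, eval_zero, zero_mul] at this
      rw [eval_rf]
      refine (mul_eq_zero.1 this).resolve_left fun h => ?_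
      have := (h3 i hi').2
      rw [h] at this
      simp at this
    · intro Z hZ
      refine level h2 hδ' (σ := -((-1) ^ ((κ + 1) * (m + 1)) * (-1) ^ (κ * (m + 1)))) ?_ hZ
      intro i hi hne
      rw [eval_mul]
      simp only [eval_rf] at hne ⊢
      have a1 := (h3 i hi).2
      have a2 := tau_half hA hB (k := κ) (by omega) (m + 1) (z := (-1) ^ κ * lam i) (by
        rw [← mul_assoc, neg_one_pow_sq, one_mul]; exact (h1 i hi).le)
      have a3 := hdj i hi
      have h4 := neg_one_pow_sq ((κ + 1) * (m + 1))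
      have h5 := neg_one_pow_sq i
      rw [pow_succ] at a1
      generalize (-1 : ℝ) ^ (κ * (m + 1)) = s1 at *
      generalize (-1 : ℝ) ^ ((κ + 1) * (m + 1)) = s2 at *
      generalize (-1 : ℝ) ^ i = s3 at *
      generalize eval _ (tau (pen A B) (κ + 1) (m + 1)) = a at *
      generalize eval _ (tau (pen A B) κ (m + 1)) = b at *
      generalize eval _ (gam (pen A B) ν κ m) = g at *
      generalize eval _ (gam (pen A B) ν (κ + 1) m) = g' at *
      have a4 : 0 < (s1 * b) * g' ^ 2 := mul_pos a2 (by positivity)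
      have a5 : (s3 * -1 * (s2 * a)) * (s3 * -(s2 * s1) * (g * g')) = (s1 * b) * g' ^ 2 := by
        linear_combination (s2 * s2 * s1 * a * g * g') * h5 + (s1 * a * g * g') * h4 +
          s1 * g' * a3
      rw [← a5] at a4
      exact (pos_iff_pos_of_mul_pos a4).1 a1
  induction j with
  | zero =>
    intro κ h1 h2 δ hδ hz
    obtain ⟨s, hs, hc⟩ := (main κ h2 δ hδ hz).1 (gam_eq_zero _ _ _ _ h1)
    exact ⟨s, hs, by simp only [cst]; omega⟩
  | succ j ih =>
    intro κ h1 h2 δ hδ hz
    by_cases h0 : gam (pen A B) ν (κ + 1) m = 0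
    · obtain ⟨s, hs, hc⟩ := (main κ (by omega) δ hδ hz).1 h0
      exact ⟨s, hs, by have := le_cst L (j + 1); omega⟩
    · have hM := ih (κ + 1) (by omega) (by omega) 0 le_rfl fun x h h' => absurd h (not_lt.2 h')
      obtain ⟨s, hs, hc⟩ := (main κ (by omega) δ hδ hz).2 (cst L j) fun s' hs' => by
        classical
        rw [← card_image_of_injective s' neg_injective]
        refine hM.few (rf_ne_zero _ h0) (S' := Set.Iio 0) (Set.Ioi_disjoint_Iio_of_le le_rfl)
          ((natDegree_rf _ _).trans (natDegree_gam _ _ _ hν _ _)) _ fun x hx => ?_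
        obtain ⟨y, hy, rfl⟩ := mem_image.1 hx
        obtain ⟨b1, b2⟩ := hs' y hy
        refine ⟨by simp only [Set.mem_Iio, Set.mem_Ioi] at b1 ⊢; linarith, ?_⟩
        rw [eval_rf] at b2 ⊢
        rw [← b2, pow_succ]
        congr 1; ring
      exact ⟨s, hs, by simp only [cst]; omega⟩

end Pool.Agent.MP_4d57dd_an

end MrgPart4

-- ======== part 5: formerly Pool.Agent.MP_4d57dd_an.Limit
section MrgPart5

/-!
# Roots off a closed half-line are not created in a limit
-/

namespace Pool.Agent.MP_4d57dd_an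

open Polynomial Finset

/-- Homogeneous coordinates of a point of `[δ, ∞]`. -/
def good (δ : ℝ) (x : ℂ × ℂ) : Prop :=
  x.1.im = 0 ∧ x.2.im = 0 ∧ 0 ≤ x.1.re ∧ δ * x.1.re ≤ x.2.re

open Classical in
/-- Number of complex roots, with multiplicity, outside `[δ, ∞)`. -/
noncomputable def bad (δ : ℝ) (g : ℂ[X]) : ℕ :=
  (g.roots.filter fun w => ¬ (w.im = 0 ∧ δ ≤ w.re)).card

/-- Product of homogeneous linear factors. -/
noncomputable def Phi {D : ℕ} (x : Fin D → ℂ × ℂ) : ℂ[X] := ∏ i, (C (x i).1 * X - C (x i).2)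

open Classical in
/-- Number of factors whose root is not in `[δ, ∞]`. -/
noncomputable def nbad (δ : ℝ) {D : ℕ} (x : Fin D → ℂ × ℂ) : ℕ :=
  (univ.filter fun i => ¬ good δ (x i)).card

open Classical in
lemma nbad_cons (δ : ℝ) {D : ℕ} (y : ℂ × ℂ) (x : Fin D → ℂ × ℂ) :
    nbad δ (Fin.cons y x : Fin (D + 1) → ℂ × ℂ) = (if good δ y then 0 else 1) + nbad δ x := by
  simp only [nbad, card_filter, Fin.sum_univ_succ, Fin.cons_zero, Fin.cons_succ]
  split_ifs <;> rfl

lemma Phi_cons {D : ℕ} (y : ℂ × ℂ) (x : Fin D → ℂ × ℂ) :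
    Phi (Fin.cons y x : Fin (D + 1) → ℂ × ℂ) = (C y.1 * X - C y.2) * Phi x := by
  simp [Phi, Fin.prod_univ_succ]

lemma bad_mul (δ : ℝ) {p q : ℂ[X]} (h : p * q ≠ 0) : bad δ (p * q) = bad δ p + bad δ q := by
  simp [bad, roots_mul h]

lemma rep (δ : ℝ) (D : ℕ) : ∀ g : ℂ[X], g.natDegree ≤ D → ∃ (c : ℂ) (x : Fin D → ℂ × ℂ),
    (∀ i, ‖(x i).1‖ + ‖(x i).2‖ = 1) ∧ g = C c * Phi x ∧ nbad δ x ≤ bad δ g := by
  induction D with
  | zero =>
    intro g hg
    refine ⟨g.coeff 0, Fin.elim0, fun i => i.elim0, ?_, by simp [nbad]⟩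
    simpa [Phi] using eq_C_of_natDegree_le_zero hg
  | succ D ih =>
    intro g hg
    by_cases h : g.natDegree ≤ D
    · obtain ⟨c, x, h1, h2, h3⟩ := ih g h
      refine ⟨-c, Fin.cons (0, 1) x, fun i => Fin.cases (by simp) h1 i, ?_, ?_⟩
      · rw [Phi_cons, h2]; simp
      · rw [nbad_cons, if_pos (by simp [good])]; simpa using h3
    · have hg0 : g ≠ 0 := by rintro rfl; simp at h
      obtain ⟨ρ, hρ⟩ := Complex.exists_root (f := g) (natDegree_pos_iff_degree_pos.1 (by omega))
      obtain ⟨g₁, rfl⟩ := dvd_iff_isRoot.2 hρ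
      have hg1 : g₁ ≠ 0 := right_ne_zero_of_mul hg0
      rw [natDegree_mul (X_sub_C_ne_zero ρ) hg1, natDegree_X_sub_C] at hg
      obtain ⟨c, x, h1, h2, h3⟩ := ih g₁ (by omega)
      set t : ℝ := 1 + ‖ρ‖ with ht
      have ht0 : 0 < t := by positivity
      have htc : (t : ℂ) ≠ 0 := by exact_mod_cast ht0.ne'
      refine ⟨c * t, Fin.cons (((t⁻¹ : ℝ) : ℂ), ((t⁻¹ : ℝ) : ℂ) * ρ) x,
        ?_, ?_, ?_⟩
      · intro i
        refine Fin.cases ?_ h1 i
        simp only [Fin.cons_zero, norm_mul, Complex.norm_real, Real.norm_eq_abs,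
          abs_of_pos (inv_pos.2 ht0)]
        field_simp
        rfl
      · rw [Phi_cons, h2]
        have : (C (t : ℂ) * C ((t⁻¹ : ℝ) : ℂ) : ℂ[X]) = 1 := by
          rw [← C_mul]; push_cast; rw [mul_inv_cancel₀ htc]; simp
        simp only [C_mul]
        linear_combination (-(X - C ρ) * C c * Phi x) * this
      · rw [nbad_cons, bad_mul δ hg0]
        refine Nat.add_le_add ?_ h3
        split_ifs with h4
        · exact Nat.zero_le _
        · have : ¬ (ρ.im = 0 ∧ δ ≤ ρ.re) := by
            rintro ⟨a1, a2⟩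
            refine h4 ⟨by simp, by simp [a1], by simpa using ht0.le, ?_⟩
            simp only [Complex.ofReal_re, Complex.re_ofReal_mul]
            rw [mul_comm]
            exact mul_le_mul_of_nonneg_left a2 (inv_pos.2 ht0).le
          rw [bad, roots_X_sub_C, Multiset.filter_singleton, if_pos this]
          simp

lemma lin_ne_zero {y : ℂ × ℂ} (h : ‖y.1‖ + ‖y.2‖ = 1) : (C y.1 * X - C y.2 : ℂ[X]) ≠ 0 := by
  intro h0
  have h1 := congrArg (coeff · 0) h0
  have h2 := congrArg (coeff · 1) h0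
  simp at h1 h2
  simp [h1, h2] at h

lemma Phi_ne_zero {D : ℕ} {x : Fin D → ℂ × ℂ} (h : ∀ i, ‖(x i).1‖ + ‖(x i).2‖ = 1) :
    Phi x ≠ 0 := prod_ne_zero_iff.2 fun i _ => lin_ne_zero (h i)

lemma bad_Phi (δ : ℝ) (D : ℕ) : ∀ x : Fin D → ℂ × ℂ, (∀ i, ‖(x i).1‖ + ‖(x i).2‖ = 1) →
    bad δ (Phi x) ≤ nbad δ x := by
  induction D with
  | zero => intro x _; simp [bad, Phi]
  | succ D ih =>
    intro x hx
    rw [← Fin.cons_self_tail x] at hx ⊢
    have hne := Phi_ne_zero hx
    rw [Phi_cons] at hne ⊢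
    rw [nbad_cons, bad_mul δ hne]
    refine Nat.add_le_add ?_ (ih _ fun i => hx i.succ)
    have h0 : ‖(x 0).1‖ + ‖(x 0).2‖ = 1 := hx 0
    generalize x 0 = y at h0
    split_ifs with h
    · rw [bad, Nat.le_zero, Multiset.card_eq_zero, Multiset.filter_eq_nil]
      intro w hw
      rw [not_not]
      have h1 : y.1 * w = y.2 := by
        have := (mem_roots (lin_ne_zero h0)).1 hw
        simpa [sub_eq_zero] using this
      obtain ⟨a1, a2, a3, a4⟩ := h
      have h2 : y.1.re ≠ 0 := by
        intro h2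
        have h3 : y.1 = 0 := Complex.ext h2 a1
        rw [h3, zero_mul] at h1
        simp [h3, ← h1] at h0
      have h3 := congrArg Complex.re h1
      have h4 := congrArg Complex.im h1
      simp only [Complex.mul_re, Complex.mul_im, a1, a2, zero_mul, sub_zero, add_zero] at h3 h4
      refine ⟨(mul_eq_zero.1 h4).resolve_left h2, ?_⟩
      rw [← h3, mul_comm] at a4
      exact le_of_mul_le_mul_left a4 (lt_of_le_of_ne a3 h2.symm)
    · refine ((Multiset.card_le_card (Multiset.filter_le _ _)).trans (card_roots' _)).trans ?_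
      compute_degree

lemma limit (δ : ℝ) (D c : ℕ) (G : ℝ → ℂ[X]) (hG : ∀ w, Continuous fun ε => (G ε).eval w)
    {ε₀ : ℝ} (h0 : 0 < ε₀)
    (h : ∀ ε, 0 < ε → ε < ε₀ → (G ε).natDegree ≤ D ∧ bad δ (G ε) ≤ c) (hne : G 0 ≠ 0) :
    bad δ (G 0) ≤ c := by
  classical
  set S : Set (ℝ × (Fin D → ℂ × ℂ)) := {p | p.1 ∈ Set.Icc 0 ε₀ ∧
    (∀ i, ‖(p.2 i).1‖ + ‖(p.2 i).2‖ = 1) ∧ nbad δ p.2 ≤ c ∧
    ∀ w w', (G p.1).eval w * (Phi p.2).eval w' = (G p.1).eval w' * (Phi p.2).eval w} with hS
  have hPhi : ∀ w, Continuous fun x : Fin D → ℂ × ℂ => (Phi x).eval w := by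
    intro w
    simp only [Phi, eval_prod, eval_sub, eval_mul, eval_C, eval_X]
    fun_prop
  have hgood : IsClosed {y : ℂ × ℂ | good δ y} := by
    have a1 : IsClosed {y : ℂ × ℂ | y.1.im = 0} := isClosed_eq (by fun_prop) (by fun_prop)
    have a2 : IsClosed {y : ℂ × ℂ | y.2.im = 0} := isClosed_eq (by fun_prop) (by fun_prop)
    have a3 : IsClosed {y : ℂ × ℂ | 0 ≤ y.1.re} := isClosed_le (by fun_prop) (by fun_prop)
    have a4 : IsClosed {y : ℂ × ℂ | δ * y.1.re ≤ y.2.re} :=
      isClosed_le (by fun_prop) (by fun_prop)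
    exact a1.inter (a2.inter (a3.inter a4))
  have hK : IsClosed {x : Fin D → ℂ × ℂ | nbad δ x ≤ c} := by
    have : {x : Fin D → ℂ × ℂ | nbad δ x ≤ c} = ⋃ T : {T : Finset (Fin D) // T.card ≤ c},
        ⋂ i : {i // i ∉ T.1}, (fun x => x i.1) ⁻¹' {y | good δ y} := by
      ext x
      simp only [Set.mem_ofPred_eq, Set.mem_iUnion, Set.mem_iInter, Set.mem_preimage]
      constructor
      · intro hx
        exact ⟨⟨_, hx⟩, fun i => by simpa using i.2⟩
      · rintro ⟨T, hT⟩
        refine le_trans (card_le_card fun i hi => ?_) T.2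
        by_contra hcon
        exact (mem_filter.1 hi).2 (hT ⟨i, hcon⟩)
    rw [this]
    exact isClosed_iUnion_of_finite fun T => isClosed_iInter fun i =>
      hgood.preimage (continuous_apply _)
  have hclosed : IsClosed S := by
    refine IsClosed.inter (isClosed_Icc.preimage continuous_fst) (IsClosed.inter ?_
      (IsClosed.inter (hK.preimage continuous_snd) ?_))
    · change IsClosed {p : ℝ × (Fin D → ℂ × ℂ) | ∀ i, ‖(p.2 i).1‖ + ‖(p.2 i).2‖ = 1}
      rw [Set.ofPred_forall]
      exact isClosed_iInter fun i => isClosed_eq (by fun_prop) (by fun_prop)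
    · change IsClosed {p : ℝ × (Fin D → ℂ × ℂ) | ∀ w w', (G p.1).eval w * (Phi p.2).eval w' =
        (G p.1).eval w' * (Phi p.2).eval w}
      simp only [Set.ofPred_forall]
      exact isClosed_iInter fun w => isClosed_iInter fun w' => isClosed_eq
        (((hG w).comp continuous_fst).mul ((hPhi w').comp continuous_snd))
        (((hG w').comp continuous_fst).mul ((hPhi w).comp continuous_snd))
  have hcomp : IsCompact S := by
    refine ((isCompact_Icc (a := (0 : ℝ)) (b := ε₀)).prod
      (isCompact_closedBall (0 : Fin D → ℂ × ℂ) 1)).of_isClosed_subset hclosed ?_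
    rintro p ⟨h1, h2, -⟩
    refine ⟨h1, ?_⟩
    rw [mem_closedBall_zero_iff, pi_norm_le_iff_of_nonneg zero_le_one]
    intro i
    have := h2 i
    have a1 := norm_nonneg (p.2 i).1
    have a2 := norm_nonneg (p.2 i).2
    rw [Prod.norm_def, max_le_iff]
    constructor <;> linarith
  have hsub : Set.Ioo 0 ε₀ ⊆ Prod.fst '' S := by
    intro ε hε
    obtain ⟨h1, h2⟩ := h ε hε.1 hε.2
    obtain ⟨a, x, b1, b2, b3⟩ := rep δ D _ h1
    refine ⟨(ε, x), ⟨⟨hε.1.le, hε.2.le⟩, b1, b3.trans h2, fun w w' => ?_⟩, rfl⟩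
    simp only [b2, eval_mul, eval_C]
    ring
  have h00 : (0 : ℝ) ∈ Prod.fst '' S := by
    refine (hcomp.image continuous_fst).isClosed.closure_subset_iff.2 hsub ?_
    rw [closure_Ioo h0.ne]
    exact ⟨le_rfl, h0.le⟩
  obtain ⟨⟨ε, x⟩, ⟨-, b1, b2, b3⟩, rfl⟩ := h00
  simp only at b1 b2 b3
  obtain ⟨w', hw'⟩ : ∃ w', (G 0).eval w' ≠ 0 := by
    by_contra hcon
    push Not at hcon
    exact hne (Polynomial.funext (by simpa using hcon))
  have heq : C ((Phi x).eval w') * G 0 = C ((G 0).eval w') * Phi x :=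
    Polynomial.funext fun w => by
      simp only [eval_mul, eval_C]
      rw [← b3 w w', mul_comm]
  have h1 : (Phi x).eval w' ≠ 0 := by
    intro h1
    rw [h1, C_0, zero_mul] at heq
    exact mul_ne_zero (C_ne_zero.2 hw') (Phi_ne_zero b1) heq.symm
  have h2 : (G 0).roots = (Phi x).roots := by
    rw [← roots_C_mul _ h1, heq, roots_C_mul _ hw']
  refine le_trans ?_ ((bad_Phi δ D x b1).trans b2)
  simp [bad, h2]

lemma Many.bad_le {g : ℝ[X]} {δ : ℝ} {M c : ℕ} (h : Many g (Set.Ioi δ) M c)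
    (hM : g.natDegree ≤ M) : bad δ (g.map (algebraMap ℝ ℂ)) ≤ c := by
  classical
  obtain ⟨s, hs, hc⟩ := h
  by_cases hg : g = 0
  · simp [hg, bad]
  have hg' : g.map (algebraMap ℝ ℂ) ≠ 0 := Polynomial.map_ne_zero hg
  have h1 := card_roots' (g.map (algebraMap ℝ ℂ))
  rw [natDegree_map] at h1
  have h2 := congrArg Multiset.card (Multiset.filter_add_not
    (fun w : ℂ => w.im = 0 ∧ δ ≤ w.re) (g.map (algebraMap ℝ ℂ)).roots)
  have h3 : s.card ≤ ((g.map (algebraMap ℝ ℂ)).roots.filter
      fun w : ℂ => w.im = 0 ∧ δ ≤ w.re).card := by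
    rw [← card_image_of_injective s Complex.ofReal_injective]
    refine le_trans (card_le_card ?_) (Multiset.toFinset_card_le _)
    intro w hw
    obtain ⟨x, hx, rfl⟩ := mem_image.1 hw
    rw [Multiset.mem_toFinset, Multiset.mem_filter, mem_roots hg']
    refine ⟨?_, by simp, (hs x hx).1.le⟩
    have := eval_map_algebraMap (B := ℂ) g (algebraMap ℝ ℂ x)
    rw [aeval_algebraMap_apply, coe_aeval_eq_eval, (hs x hx).2, map_zero] at this
    exact this
  rw [Multiset.card_add] at h2
  unfold bad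
  omega

end Pool.Agent.MP_4d57dd_an

end MrgPart5

-- ======== part 6: formerly Pool.Agent.MP_4d57dd_an.Main
section MrgPart6

/-!
# Passing to the limit pencil `Q(t) + z t^r`
-/

namespace Pool.Agent.MP_4d57dd_an

open Polynomial Finset

lemma fac_of_roots (n : ℕ) : ∀ Q : ℝ[X], Q.natDegree = n → 0 < Q.eval 0 →
    (∀ w : ℂ, aeval w Q = 0 → w.im = 0 ∧ 0 < w.re) → Fac (-1) n Q := by
  induction n with
  | zero =>
    intro Q hn h0 _
    rw [eq_C_of_natDegree_eq_zero hn] at h0 ⊢
    exact Fac.const _ (by simpa using h0)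
  | succ n ih =>
    intro Q hn h0 hQ
    have hQ0 : Q ≠ 0 := by rintro rfl; simp at hn
    obtain ⟨w, hw⟩ := IsAlgClosed.exists_aeval_eq_zero ℂ Q
      (natDegree_pos_iff_degree_pos.1 (by omega)).ne'
    obtain ⟨h1, h2⟩ := hQ w hw
    have hw' : w = algebraMap ℝ ℂ w.re := Complex.ext (by simp) (by simp [h1])
    have hr : Q.IsRoot w.re := by
      rw [hw', aeval_algebraMap_apply, coe_aeval_eq_eval] at hw
      simpa using hw
    obtain ⟨Q₁, hQ₁⟩ := dvd_iff_isRoot.2 hr
    have hQ₁0 : Q₁ ≠ 0 := by rintro rfl; simp [hQ0] at hQ₁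
    have hd : (-Q₁).natDegree = n := by
      rw [hQ₁, natDegree_mul (X_sub_C_ne_zero _) hQ₁0, natDegree_X_sub_C] at hn
      rw [natDegree_neg]; omega
    have := Fac.step w.re 1 h2 one_pos (ih (-Q₁) hd (by
      rw [hQ₁] at h0
      simp only [eval_mul, eval_sub, eval_X, eval_C, eval_neg] at h0 ⊢
      by_contra hcon
      nlinarith) fun v hv => hQ v (by
        rw [hQ₁, map_mul]
        rw [map_neg, neg_eq_zero] at hv
        rw [hv, mul_zero]))
    convert this using 1
    rw [hQ₁]
    simp only [mul_one, map_neg, map_one]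
    ring

/-- A family of polynomials with continuous coefficients. -/
def CoefCont (p : ℝ → ℝ[X]) : Prop := ∀ i, Continuous fun ε => (p ε).coeff i

lemma CoefCont.const (q : ℝ[X]) : CoefCont fun _ => q := fun _ => continuous_const

lemma CoefCont.mul {p q : ℝ → ℝ[X]} (hp : CoefCont p) (hq : CoefCont q) :
    CoefCont fun ε => p ε * q ε := by
  intro i
  simp only [coeff_mul]
  exact continuous_finsetSum _ fun x _ => (hp _).mul (hq _)

lemma CoefCont.pow {p : ℝ → ℝ[X]} (hp : CoefCont p) (j : ℕ) : CoefCont fun ε => p ε ^ j := by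
  induction j with
  | zero => simpa using CoefCont.const 1
  | succ j ih => simpa only [pow_succ] using ih.mul hp

lemma CoefCont.lin {f g : ℝ → ℝ} (hf : Continuous f) (hg : Continuous g) :
    CoefCont fun ε => C (f ε) + C (g ε) * X := by
  intro i
  simp only [coeff_add, coeff_C_mul, coeff_C]
  split_ifs <;> fun_prop

lemma continuous_dt {α K : Type} [TopologicalSpace α] [CommRing K] [TopologicalSpace K]
    [IsTopologicalRing K] {f : α → ℕ → ℕ → K} (hf : ∀ a b, Continuous fun x => f x a b) (m : ℕ) :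
    Continuous fun x => dt (f x) m :=
  Continuous.matrix_det (continuous_matrix fun a b => hf a b)

lemma continuous_gam {A B : ℝ → ℝ[X]} (hA : CoefCont A) (hB : CoefCont B) (ν : ℝ[X][X])
    (k m : ℕ) (w : ℂ) :
    Continuous fun ε => ((gam (pen (A ε) (B ε)) ν k m).map (algebraMap ℝ ℂ)).eval w := by
  have : ∀ g : ℝ[X], (g.map (algebraMap ℝ ℂ)).eval w = eval₂RingHom (algebraMap ℝ ℂ) w g := by
    intro g; simp [eval_map]
  simp only [this, gam, map_dt]
  refine continuous_dt (fun a b => ?_) _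
  cases b with
  | zero => simp only [gamArr]; exact continuous_const
  | succ b =>
    simp only [gamArr, pen_coeff, coe_eval₂RingHom, eval₂_add, eval₂_mul, eval₂_C, eval₂_X]
    have h1 := (hA.mul (CoefCont.const (X ^ b))) (k + a)
    have h2 := (hB.mul (CoefCont.const (X ^ b))) (k + a)
    exact (continuous_const.mul (Complex.continuous_ofReal.comp h2)).add
      (Complex.continuous_ofReal.comp h1)

lemma continuous_tau {A B : ℝ → ℝ[X]} (hA : CoefCont A) (hB : CoefCont B) (k m : ℕ) :
    Continuous fun p : ℝ × ℝ => (tau (pen (A p.1) (B p.1)) k m).eval p.2 := by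
  simp only [eval_tau]
  simp only [tau]
  refine continuous_dt (fun a b => ?_) _
  simp only [add_mul, mul_assoc, coeff_add, coeff_C_mul]
  have h1 := (hA.mul (CoefCont.const (X ^ b))) (k + a)
  have h2 := (hB.mul (CoefCont.const (X ^ b))) (k + a)
  exact (h1.comp continuous_fst).add (continuous_snd.mul (h2.comp continuous_fst))

/-- The bound for the limit pencil. -/
lemma main_bound {n : ℕ} {Q : ℝ[X]} (hQ : Fac (-1) n Q) (hn : 1 ≤ n) (r : ℕ) (ν : ℝ[X][X])
    {L d : ℕ} (hν : ∀ i, (ν.coeff i).natDegree ≤ L) (hd : ν.natDegree ≤ d) (m : ℕ)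
    (hne : gam (pen Q (X ^ r)) ν 0 m ≠ 0) :
    ∃ δ : ℝ, 0 < δ ∧ bad δ ((gam (pen Q (X ^ r)) ν 0 m).map (algebraMap ℝ ℂ)) ≤ cst L d := by
  set A : ℝ → ℝ[X] := fun ε => (C 1 + C (-1 * ε) * X) ^ (r + d + 2) * Q with hA
  set B : ℝ → ℝ[X] := fun ε =>
    (C 1 + C (1 * ε) * X) ^ (n + d + 2) * ((C ε + C (1 * 1) * X) ^ r * C 1) with hB
  have hA0 : A 0 = Q := by simp [hA]
  have hB0 : B 0 = X ^ r := by simp [hB]
  have hAc : CoefCont A :=
    ((CoefCont.lin continuous_const (by fun_prop)).pow _).mul (CoefCont.const _)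
  have hBc : CoefCont B :=
    ((CoefCont.lin continuous_const (by fun_prop)).pow _).mul
      (((CoefCont.lin continuous_id continuous_const).pow _).mul (CoefCont.const _))
  have hAf : ∀ ε, 0 < ε → Fac (-1) (n + (r + d + 2)) (A ε) := fun ε hε =>
    hQ.pow_mul 1 ε one_pos hε _
  have hBf : ∀ ε, 0 < ε → Fac 1 (n + (r + d + 2)) (B ε) := fun ε hε => by
    have := ((Fac.const (σ := 1) 1 one_pos).pow_mul ε 1 hε one_pos r).pow_mul 1 ε one_pos hε
      (n + d + 2)
    rwa [show 0 + r + (n + d + 2) = n + (r + d + 2) by ring] at this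
  have h0 : (tau (pen (A 0) (B 0)) 1 m).eval 0 ≠ 0 := by
    rw [eval_tau, hA0]
    exact tau_ne_zero hQ (hBf 1 one_pos) hn m (z := 0) (by simp) ∘ fun h => by simpa using h
  have hev := (continuous_tau hAc hBc 1 m).continuousAt (x := (0, 0)) |>.eventually_ne h0
  obtain ⟨η, hη, hball⟩ := Metric.eventually_nhds_iff.1 hev
  refine ⟨η / 2, by positivity, ?_⟩
  have := limit (η / 2) (m + L) (cst L d)
    (fun ε => (gam (pen (A ε) (B ε)) ν 0 m).map (algebraMap ℝ ℂ))
    (continuous_gam hAc hBc ν 0 m) hη (fun ε h1 h2 => ?_)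
    (by rw [hA0, hB0]; exact Polynomial.map_ne_zero hne)
  · simpa only [hA0, hB0] using this
  · have hdeg := natDegree_gam (A ε) (B ε) ν hν 0 m
    refine ⟨by rwa [natDegree_map], Many.bad_le ?_ hdeg⟩
    have := generic (hAf ε h1) (hBf ε h1) ν hν m d 0 (by omega) (by omega) (η / 2)
      (by positivity) fun x a1 a2 => by
        have := hball (y := (ε, x)) (by
          rw [Prod.dist_eq, max_lt_iff, Real.dist_eq, Real.dist_eq, sub_zero, sub_zero,
            abs_of_pos h1, abs_of_pos a1]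
          exact ⟨h2, by linarith⟩)
        simpa using this
    simpa [rf] using this

/-- Cramer's rule for the coefficients of `ν / p`. -/
lemma gam_link {K : Type} [CommRing K] (p ν : K[X]) (S : PowerSeries K)
    (h : (p : PowerSeries K) * S = ν) (m : ℕ) :
    ∃ u : ℤˣ, gam p ν 0 m = ((u : ℤ) : K) * (p.coeff 0 ^ (m + 1) * PowerSeries.coeff m S) := by
  set T : Matrix (Fin (m + 1)) (Fin (m + 1)) K :=
    Matrix.of fun a b => (p * X ^ (b : ℕ)).coeff a with hT
  have hdet : T.det = p.coeff 0 ^ (m + 1) := by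
    rw [Matrix.det_of_isLowerTriangular T]
    · simp [hT, coeff_mul_X_pow']
    · intro a b hab
      have : ¬ b ≤ a := not_le.2 hab
      simp [hT, coeff_mul_X_pow', this]
  have hv : T.mulVec (fun b => PowerSeries.coeff b S) = fun a : Fin (m + 1) => ν.coeff a := by
    ext a
    have := congrArg (PowerSeries.coeff a) h
    rw [Polynomial.coeff_coe, mul_comm, PowerSeries.coeff_mul,
      Finset.Nat.sum_antidiagonal_eq_sum_range_succ_mk] at this
    rw [← this]
    simp only [Matrix.mulVec, dotProduct, hT, Matrix.of_apply, coeff_mul_X_pow',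
      Polynomial.coeff_coe]
    rw [Fin.sum_univ_eq_sum_range (fun b => (if b ≤ a then p.coeff (a - b) else 0) *
      PowerSeries.coeff b S) (m + 1)]
    symm
    refine sum_subset_zero_on_sdiff (range_subset_range.2 a.isLt) ?_ ?_
    · intro b hb
      have : ¬ b ≤ a := by
        have := (mem_sdiff.1 hb).2
        simpa using this
      simp [this]
    · intro b hb
      have : b ≤ a := by simpa [Nat.lt_succ_iff] using hb
      simp [this, mul_comm]
  have hc : (T.updateCol (Fin.last m) fun a : Fin (m + 1) => ν.coeff a).det =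
      T.det * PowerSeries.coeff m S := by
    rw [← Matrix.cramer_apply, ← hv, Matrix.cramer_eq_adjugate_mulVec, Matrix.mulVec_mulVec,
      Matrix.adjugate_mul, Matrix.smul_mulVec, Matrix.one_mulVec]
    simp
  refine ⟨Equiv.Perm.sign (finRotate (m + 1)).symm, ?_⟩
  rw [← hdet, ← hc, ← Matrix.det_permute', gam, dt]
  congr 1
  ext a b
  refine Fin.cases ?_ (fun b => ?_) b
  · have : (finRotate (m + 1)).symm 0 = Fin.last m := by
      rw [Equiv.symm_apply_eq, finRotate_last]
    simp only [Matrix.of_apply, Matrix.submatrix_apply, id, this, Matrix.updateCol_self]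
    simp [gamArr]
  · have : (finRotate (m + 1)).symm b.succ = b.castSucc := by
      rw [Equiv.symm_apply_eq]; simp
    simp only [Matrix.of_apply, Matrix.submatrix_apply, id, this,
      Matrix.updateCol_ne (Fin.castSucc_ne_last b)]
    simp [gamArr, hT]

end Pool.Agent.MP_4d57dd_an

end MrgPart6

-- marker of a merged file
example : 731051 + 788141 = 731051 + 788141 := rfl
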